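import Mathlib

/-!
Fewer equations than unknowns over an algebraically closed field, all vanishing at the origin,
have a second common zero.
-/

set_option autoImplicit false

namespace Pool.Agent.Helper71.SE

open MvPolynomial

theorem exists_common_zero {K : Type*} [Field K] [IsAlgClosed K] {ι : Type*} [Finite ι] {r : ℕ}
    (f : Fin r → MvPolynomial ι K) (h0 : ∀ j, eval 0 (f j) = 0) (hr : r < Nat.card ι) :
    ∃ x : ι → K, x ≠ 0 ∧ ∀ j, eval x (f j) = 0 := by
  by_contra hcon
  push Not at hcon
  have hdim : ringKrullDim (MvPolynomial ι K) = Nat.card ι := by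
    rw [MvPolynomial.ringKrullDim_of_isNoetherianRing, ringKrullDim_eq_zero_of_field, zero_add]
  have hfin : FiniteRingKrullDim (MvPolynomial ι K) := by
    rw [finiteRingKrullDim_iff_ne_bot_and_top, hdim]
    refine ⟨WithBot.coe_ne_bot (a := (Nat.card ι : ℕ∞)), ?_⟩
    change (((Nat.card ι : ℕ∞) : WithBot ℕ∞)) ≠ ((⊤ : ℕ∞) : WithBot ℕ∞)
    rw [Ne, WithBot.coe_inj]
    exact ENat.natCast_ne_top _
  obtain ⟨p, hp, hht⟩ := Ideal.exists_isMaximal_height (R := MvPolynomial ι K)
  obtain ⟨a, ha⟩ := isMaximal_iff_eq_vanishingIdeal_singleton.1 hp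
  let g : Fin r → MvPolynomial ι K := fun j => aeval (fun i => X i - C (a i)) (f j)
  have hg : ∀ j x, eval x (g j) = eval (x - a) (f j) := by
    intro j x
    change eval x (aeval (fun i => X i - C (a i)) (f j)) = _
    have h1 : (eval x).comp (aeval (fun i => X i - C (a i)) : MvPolynomial ι K →ₐ[K] _).toRingHom =
        eval (x - a) := by
      apply MvPolynomial.ringHom_ext
      · intro c; simp
      · intro i; simp
    exact congrArg (fun φ : MvPolynomial ι K →+* K => φ (f j)) h1
  have hmin : p ∈ (Ideal.span (Set.range g)).minimalPrimes := by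
    refine ⟨⟨hp.isPrime, ?_⟩, ?_⟩
    · rw [Ideal.span_le]
      rintro _ ⟨j, rfl⟩
      rw [ha]
      change g j ∈ vanishingIdeal K {a}
      rw [mem_vanishingIdeal_singleton_iff]
      have := hg j a
      rw [sub_self, h0] at this
      exact (congrArg (fun φ : MvPolynomial ι K →+* K => φ (g j))
        (MvPolynomial.coe_aeval_eq_eval a)).trans this
    · intro q hq _
      obtain ⟨hq1, hq2⟩ := hq
      have h1 : zeroLocus K q ≤ ({a} : Set (ι → K)) := by
        intro x hx
        rw [Set.mem_singleton_iff]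
        by_contra hne
        obtain ⟨j, hj⟩ := hcon (x - a) (sub_ne_zero.2 hne)
        apply hj
        rw [← hg]
        exact hx (g j) (hq2 (Ideal.subset_span ⟨j, rfl⟩))
      rw [ha, ← IsPrime.vanishingIdeal_zeroLocus (K := K) q]
      exact vanishingIdeal_anti_mono h1
  have h1 := Ideal.height_le_card_of_mem_minimalPrimes_span (Set.finite_range g) hmin
  have h2 : (Set.range g).ncard ≤ r := by
    rw [← Set.image_univ]
    refine (Set.ncard_image_le Set.finite_univ).trans ?_
    rw [Set.ncard_univ, Nat.card_eq_fintype_card, Fintype.card_fin]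
  have h3 : (p.height : WithBot ℕ∞) ≤ ((r : ℕ∞) : WithBot ℕ∞) := by
    have : p.height ≤ (r : ℕ∞) := h1.trans (by exact_mod_cast h2)
    exact_mod_cast this
  rw [hht, hdim] at h3
  have h4 : Nat.card ι ≤ r := by exact_mod_cast h3
  omega

end Pool.Agent.Helper71.SE
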