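import Pool.Agent.Helper91.Section.SE.Semi

/-!
The Galois group of a cyclic cover, norms as products of conjugates.
-/

universe u

set_option autoImplicit false

namespace Pool.Agent.Helper71.SE

open Polynomial Pool.Agent.Helper91.SE

section

variable {K L : Type u} [Field K] [Field L] [Algebra K[X] L] [Algebra (RatFunc K) L]
    [IsScalarTower K[X] (RatFunc K) L]
    {n : ℕ} {s : ℕ} {e : Fin s → K} {m : Fin s → ℕ} {w : L} (h : IsCyc K L n e m w)
    {ζ : K} {σ : L ≃ₐ[RatFunc K] L} (hσ : σ w = algebraMap K[X] L (C ζ) * w)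

lemma aut_poly (σ : L ≃ₐ[RatFunc K] L) (p : K[X]) :
    σ (algebraMap K[X] L p) = algebraMap K[X] L p := by
  rw [Pool.Agent.Helper91.SE.algebraMap_eq, AlgEquiv.commutes]

include hσ in
lemma pow_w (k : ℕ) : (σ ^ k) w = algebraMap K[X] L (C (ζ ^ k)) * w := by
  induction k with
  | zero => simp
  | succ k ih =>
    rw [pow_succ', AlgEquiv.mul_apply, ih, map_mul, aut_poly, hσ, ← mul_assoc, ← map_mul, ← C_mul,
      ← pow_succ]

include h

lemma aut_ext {σ τ : L ≃ₐ[RatFunc K] L} (hw : σ w = τ w) : σ = τ := by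
  apply AlgEquiv.coe_toAlgHom_injective
  refine AlgHom.ext_of_adjoin_eq_top h.gen fun z hz => ?_
  have hz' : z = w := hz
  rw [hz']
  exact hw

include hσ

lemma pow_inj (hζ : IsPrimitiveRoot ζ n) {i j : ℕ} (hi : i < n) (hj : j < n)
    (hij : σ ^ i = σ ^ j) : i = j := by
  have h1 : (σ ^ i) w = (σ ^ j) w := by rw [hij]
  rw [pow_w hσ, pow_w hσ] at h1
  have h2 := C_injective (algebraMap_inj (K := K) (L := L) (mul_right_cancel₀ h.w_ne h1))
  exact hζ.pow_inj hi hj h2

lemma pow_n (hζ : IsPrimitiveRoot ζ n) : σ ^ n = 1 := by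
  apply aut_ext h
  rw [pow_w hσ, hζ.pow_eq_one, C_1, map_one, one_mul]
  rfl

lemma pow_bij (hζ : IsPrimitiveRoot ζ n) :
    Function.Bijective (fun k : Fin n => σ ^ (k : ℕ)) := by
  have hfd := h.finiteDimensional
  have hgal := h.isGalois
  rw [Fintype.bijective_iff_injective_and_card]
  refine ⟨fun i j hij => Fin.ext (pow_inj h hσ hζ i.2 j.2 hij), ?_⟩
  rw [Fintype.card_fin, ← Nat.card_eq_fintype_card, IsGalois.card_aut_eq_finrank, h.finrank]

lemma mem_zpowers (hζ : IsPrimitiveRoot ζ n) (τ : L ≃ₐ[RatFunc K] L) :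
    τ ∈ Subgroup.zpowers σ := by
  obtain ⟨k, hk⟩ := (pow_bij h hσ hζ).2 τ
  exact ⟨k, by simpa using hk⟩

lemma norm_prod (hζ : IsPrimitiveRoot ζ n) (x : L) :
    algebraMap (RatFunc K) L (Algebra.norm (RatFunc K) x) = ∏ k ∈ Finset.range n, (σ ^ k) x := by
  have hfd := h.finiteDimensional
  have hgal := h.isGalois
  rw [Algebra.norm_eq_prod_automorphisms, Finset.prod_range]
  exact (Fintype.prod_bijective _ (pow_bij h hσ hζ) _ _ fun k => rfl).symm

lemma of_fixed (hζ : IsPrimitiveRoot ζ n) {x : L} (hx : σ x = x) :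
    ∃ q : RatFunc K, algebraMap (RatFunc K) L q = x := by
  have hfd := h.finiteDimensional
  have hgal := h.isGalois
  have h1 : ∀ τ : L ≃ₐ[RatFunc K] L, τ x = x := by
    intro τ
    obtain ⟨k, rfl⟩ := (pow_bij h hσ hζ).2 τ
    change (σ ^ (k : ℕ)) x = x
    induction (k : ℕ) with
    | zero => rfl
    | succ k ih => rw [pow_succ', AlgEquiv.mul_apply, ih, hx]
  exact IsGalois.mem_range_algebraMap_iff_fixed x |>.2 h1

end

end Pool.Agent.Helper71.SE
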