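import Pool.Agent.Helper71.SE.Zero
import Pool.Agent.Helper91.Section.SE.Deg

/-!
Tsen's theorem for norms: over an algebraically closed field `K`, norms from finite extensions of
`K(x)` are surjective.
-/

set_option autoImplicit false

namespace Pool.Agent.Helper71.SE

open Polynomial

section Generic

variable {K : Type*} [Field K]

/-- The polynomial with given coefficients. -/
noncomputable def pol {A : Type*} [CommSemiring A] {D : ℕ} (c : Fin (D + 1) → A) : A[X] :=
  ∑ k : Fin (D + 1), C (c k) * X ^ (k : ℕ)

lemma pol_coeff {A : Type*} [CommSemiring A] {D : ℕ} (c : Fin (D + 1) → A) (k : Fin (D + 1)) :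
    (pol c).coeff k = c k := by
  unfold pol
  rw [finsetSum_coeff, Finset.sum_eq_single k]
  · simp
  · intro b _ hb
    rw [coeff_C_mul, coeff_X_pow, if_neg (fun h => hb (Fin.ext h.symm)), mul_zero]
  · intro h
    exact absurd (Finset.mem_univ k) h

lemma pol_natDegree {A : Type*} [CommSemiring A] {D : ℕ} (c : Fin (D + 1) → A) :
    (pol c).natDegree ≤ D := by
  refine natDegree_sum_le_of_forall_le _ _ fun k _ => ?_
  exact (natDegree_C_mul_X_pow_le _ _).trans (by omega)

lemma pol_map {A B : Type*} [CommSemiring A] [CommSemiring B] (φ : A →+* B) {D : ℕ}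
    (c : Fin (D + 1) → A) : (pol c).map φ = pol (fun k => φ (c k)) := by
  unfold pol
  rw [Polynomial.map_sum]
  refine Finset.sum_congr rfl fun k _ => ?_
  rw [Polynomial.map_mul, map_C, Polynomial.map_pow, map_X]

lemma natDegree_det_le {n B : ℕ} (M : Matrix (Fin n) (Fin n) K[X])
    (hM : ∀ i j, (M i j).natDegree ≤ B) : M.det.natDegree ≤ n * B := by
  rw [Matrix.det_apply]
  refine natDegree_sum_le_of_forall_le _ _ fun σ _ => ?_
  refine (natDegree_smul_le _ _).trans ?_
  refine (natDegree_prod_le _ _).trans ?_
  calc ∑ i : Fin n, (M (σ i) i).natDegree ≤ ∑ _i : Fin n, B := Finset.sum_le_sum fun i _ => hM _ _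
    _ = n * B := by simp

variable [IsAlgClosed K] {S : Type*} [CommRing S] [IsDomain S] [Algebra K[X] S]

/-- Tsen's theorem for the norm form of a domain which is free of rank `n` over `K[X]`. -/
theorem tsen {n : ℕ} (β : Module.Basis (Fin n) K[X] S) (f : K[X]) :
    ∃ (z : S) (t : K[X]), t ≠ 0 ∧ Algebra.norm K[X] z = f * t ^ n := by
  classical
  let M : Fin n → Matrix (Fin n) (Fin n) K[X] := fun j => Algebra.leftMulMatrix β (β j)
  set d₀ : ℕ := f.natDegree + ∑ j, ∑ a, ∑ b, (M j a b).natDegree with hd₀
  have hd1 : f.natDegree ≤ d₀ := Nat.le_add_right _ _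
  have hd2 : ∀ j a b, (M j a b).natDegree ≤ d₀ := by
    intro j a b
    have h1 : (M j a b).natDegree ≤ ∑ b, (M j a b).natDegree :=
      Finset.single_le_sum (f := fun b => (M j a b).natDegree) (fun _ _ => Nat.zero_le _)
        (Finset.mem_univ b)
    have h2 : ∑ b, (M j a b).natDegree ≤ ∑ a, ∑ b, (M j a b).natDegree :=
      Finset.single_le_sum (f := fun a => ∑ b, (M j a b).natDegree) (fun _ _ => Nat.zero_le _)
        (Finset.mem_univ a)
    have h3 : ∑ a, ∑ b, (M j a b).natDegree ≤ ∑ j, ∑ a, ∑ b, (M j a b).natDegree :=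
      Finset.single_le_sum (f := fun j => ∑ a, ∑ b, (M j a b).natDegree)
        (fun _ _ => Nat.zero_le _) (Finset.mem_univ j)
    omega
  rcases Nat.eq_zero_or_pos n with hn | hn
  · subst hn
    have hb : IsEmpty (Fin 0) := inferInstance
    exfalso
    have : Subsingleton S := by
      have := β.repr.toEquiv.subsingleton
      exact this
    exact not_subsingleton S this
  set D : ℕ := n * d₀ with hD
  let ι := Option (Fin n) × Fin (D + 1)
  let Sg := MvPolynomial ι K
  let Q : Option (Fin n) → Sg[X] := fun o => pol (fun k => MvPolynomial.X (o, k))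
  let Mat : Matrix (Fin n) (Fin n) Sg[X] :=
    ∑ j, Q (some j) • (M j).map (mapRingHom (MvPolynomial.C : K →+* Sg))
  let F : Sg[X] := Mat.det - f.map (MvPolynomial.C : K →+* Sg) * Q none ^ n
  -- evaluation
  let q : (ι → K) → Option (Fin n) → K[X] := fun x o => pol (fun k => x (o, k))
  let zq : (ι → K) → S := fun x => ∑ j, q x (some j) • β j
  have hQ : ∀ (x : ι → K) o, (Q o).map (MvPolynomial.eval x) = q x o := by
    intro x o
    change (pol _).map _ = pol _
    rw [pol_map]
    simp
  have hMC : ∀ (x : ι → K) (p : K[X]),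
      (p.map (MvPolynomial.C : K →+* Sg)).map (MvPolynomial.eval x) = p := by
    intro x p
    rw [Polynomial.map_map]
    have : (MvPolynomial.eval x).comp (MvPolynomial.C : K →+* Sg) = RingHom.id K := by
      ext c; simp
    rw [this, Polynomial.map_id]
  have hMat : ∀ x : ι → K, Mat.map (mapRingHom (MvPolynomial.eval x)) =
      Algebra.leftMulMatrix β (zq x) := by
    intro x
    have h1 : Algebra.leftMulMatrix β (zq x) = ∑ j, q x (some j) • M j := by
      change Algebra.leftMulMatrix β (∑ j, q x (some j) • β j) = _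
      rw [map_sum]
      refine Finset.sum_congr rfl fun j _ => ?_
      rw [map_smul]
    rw [h1]
    ext1 a b
    have h2 : Mat a b = ∑ j, (Q (some j) • (M j).map (mapRingHom (MvPolynomial.C : K →+* Sg))) a b :=
      Matrix.sum_apply a b _ _
    have h3 : (∑ j, q x (some j) • M j) a b = ∑ j, (q x (some j) • M j) a b :=
      Matrix.sum_apply a b _ _
    rw [Matrix.map_apply, h2, h3, map_sum]
    refine Finset.sum_congr rfl fun j _ => ?_
    rw [Matrix.smul_apply, Matrix.smul_apply, smul_eq_mul, smul_eq_mul, map_mul, Matrix.map_apply,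
      coe_mapRingHom, hQ, coe_mapRingHom, hMC]
  have hF : ∀ x : ι → K, F.map (MvPolynomial.eval x) =
      Algebra.norm K[X] (zq x) - f * q x none ^ n := by
    intro x
    change (Mat.det - f.map (MvPolynomial.C : K →+* Sg) * Q none ^ n).map _ = _
    rw [Polynomial.map_sub, Polynomial.map_mul, Polynomial.map_pow, hMC, hQ,
      Algebra.norm_eq_matrix_det β, ← hMat x, ← RingHom.mapMatrix_apply, ← RingHom.map_det]
    rfl
  -- the degree
  have hdeg : ∀ x : ι → K, (F.map (MvPolynomial.eval x)).natDegree ≤ n * (D + d₀) := by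
    intro x
    rw [hF]
    refine (natDegree_sub_le _ _).trans (max_le ?_ ?_)
    · rw [Algebra.norm_eq_matrix_det β]
      refine natDegree_det_le _ fun a b => ?_
      have h1 : Algebra.leftMulMatrix β (zq x) = ∑ j, q x (some j) • M j := by
        change Algebra.leftMulMatrix β (∑ j, q x (some j) • β j) = _
        rw [map_sum]
        refine Finset.sum_congr rfl fun j _ => ?_
        rw [map_smul]
      rw [h1, Matrix.sum_apply]
      refine natDegree_sum_le_of_forall_le _ _ fun j _ => ?_
      rw [Matrix.smul_apply, smul_eq_mul]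
      refine natDegree_mul_le.trans ?_
      exact Nat.add_le_add (pol_natDegree _) (hd2 j a b)
    · refine natDegree_mul_le.trans ?_
      have h1 : (q x none ^ n).natDegree ≤ n * D :=
        natDegree_pow_le.trans (Nat.mul_le_mul_left n (pol_natDegree _))
      have h2 : f.natDegree ≤ n * d₀ := hd1.trans (Nat.le_mul_of_pos_left d₀ hn)
      calc f.natDegree + (q x none ^ n).natDegree ≤ n * d₀ + n * D := Nat.add_le_add h2 h1
        _ = n * (D + d₀) := by ring
  -- the zero
  obtain ⟨x, hx0, hx⟩ := exists_common_zero (K := K) (ι := ι) (r := n * (D + d₀) + 1)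
    (fun l => F.coeff l) (by
      intro l
      have h1 : MvPolynomial.eval (0 : ι → K) (F.coeff l) =
          (F.map (MvPolynomial.eval (0 : ι → K))).coeff l := (coeff_map _ _).symm
      rw [h1, hF]
      have h2 : ∀ o, q 0 o = 0 := by
        intro o
        change pol _ = 0
        unfold pol
        simp
      have h3 : zq 0 = 0 := by
        change ∑ j, q 0 (some j) • β j = 0
        simp [h2]
      have h4 : Algebra.norm K[X] (0 : S) = 0 := by
        have : Nonempty (Fin n) := ⟨⟨0, hn⟩⟩
        rw [Algebra.norm_eq_matrix_det β, map_zero, Matrix.det_zero]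
      rw [h3, h2, h4, zero_pow hn.ne', mul_zero, sub_zero, coeff_zero])
    (by
      rw [Nat.card_eq_fintype_card, Fintype.card_prod, Fintype.card_option, Fintype.card_fin,
        Fintype.card_fin, hD]
      nlinarith)
  have hFx : F.map (MvPolynomial.eval x) = 0 := by
    ext l
    rw [coeff_zero]
    by_cases hl : l < n * (D + d₀) + 1
    · rw [coeff_map]
      exact hx ⟨l, hl⟩
    · exact coeff_eq_zero_of_natDegree_lt ((hdeg x).trans_lt (by omega))
  rw [hF, sub_eq_zero] at hFx
  refine ⟨zq x, q x none, ?_, hFx⟩
  intro ht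
  rw [ht, zero_pow hn.ne', mul_zero] at hFx
  have hz : zq x = 0 := by
    have := Module.Free.of_basis β
    have := Module.Finite.of_basis β
    exact (Algebra.norm_eq_zero_iff).1 hFx
  have hq : ∀ j, q x (some j) = 0 := by
    have := Fintype.linearIndependent_iff.1 β.linearIndependent (fun j => q x (some j)) hz
    exact this
  apply hx0
  funext ⟨o, k⟩
  have h5 : q x o = 0 := by
    cases o with
    | none => exact ht
    | some j => exact hq j
  have h6 := pol_coeff (fun k => x (o, k)) k
  change (q x o).coeff k = x (o, k) at h6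
  rw [h5, coeff_zero] at h6
  exact h6.symm

end Generic

end Pool.Agent.Helper71.SE
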