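import Pool.Agent.Helper71.SE.Idl
import Pool.Agent.Helper71.SE.Tsen

/-!
Divisibility of the class group of a cyclic cover by `1 - σ`.
-/

universe u

set_option autoImplicit false

namespace Pool.Agent.Helper71.SE

open Polynomial Pool.Agent.Helper91.SE nonZeroDivisors

section

variable {K L : Type u} [Field K] [Field L] [Algebra K[X] L] [Algebra (RatFunc K) L]
    [IsScalarTower K[X] (RatFunc K) L]
    {n : ℕ} {s : ℕ} {e : Fin s → K} {m : Fin s → ℕ} {w : L}
    (h : IsCyc K L n e m w) {ζ : K} {σ : L ≃ₐ[RatFunc K] L}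

include h

lemma isLoc : IsLocalization (Algebra.algebraMapSubmonoid (integralClosure K[X] L) (K[X])⁰) L := by
  have hfd := h.finiteDimensional
  exact IsIntegralClosure.isLocalization K[X] (RatFunc K) L (integralClosure K[X] L)

lemma free : Module.Free K[X] (integralClosure K[X] L) := by
  have := h.moduleFinite
  have := h.torsionFree
  infer_instance

lemma norm_loc (z : integralClosure K[X] L) :
    Algebra.norm (RatFunc K) (z : L) = algebraMap K[X] (RatFunc K) (Algebra.norm K[X] z) := by
  have := isLoc h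
  have := free h
  have := h.moduleFinite
  exact Algebra.norm_localization K[X] (K[X])⁰ z

lemma finrank_R : Module.finrank K[X] (integralClosure K[X] L) = n := by
  have h1 := free h
  have h2 := h.moduleFinite
  have h3 := norm_loc h (algebraMap K[X] (integralClosure K[X] L) X)
  have h4 : ((algebraMap K[X] (integralClosure K[X] L) X : integralClosure K[X] L) : L) =
      algebraMap (RatFunc K) L (algebraMap K[X] (RatFunc K) X) :=
    Pool.Agent.Helper91.SE.algebraMap_eq X
  have h5 := Algebra.norm_algebraMap_of_basis (Module.finBasis K[X] (integralClosure K[X] L))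
    (X : K[X])
  have hfd := h.finiteDimensional
  rw [h4, Algebra.norm_algebraMap, h.finrank, h5, ← map_pow] at h3
  have h6 := RatFunc.algebraMap_injective K h3
  have h7 := congrArg natDegree h6
  rw [natDegree_X_pow, natDegree_X_pow, Fintype.card_fin] at h7
  exact h7.symm

/-- The norm of a regular function as a product of conjugates. -/
lemma norm_prodR (hζ : IsPrimitiveRoot ζ n) (hσ : σ w = algebraMap K[X] L (C ζ) * w)
    (z : integralClosure K[X] L) :
    algebraMap K[X] (integralClosure K[X] L) (Algebra.norm K[X] z) =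
      ∏ k ∈ Finset.range n, galR (σ ^ k) z := by
  apply Subtype.ext
  have h1 := norm_prod h hσ hζ (z : L)
  rw [norm_loc h] at h1
  have h2 : ((∏ k ∈ Finset.range n, galR (σ ^ k) z : integralClosure K[X] L) : L) =
      ∏ k ∈ Finset.range n, (galR (σ ^ k) z : L) :=
    map_prod (integralClosure K[X] L).val _ _
  rw [h2]
  refine Eq.trans ?_ h1
  exact Pool.Agent.Helper91.SE.algebraMap_eq (Algebra.norm K[X] z)

/-- Every nonzero polynomial is a norm up to an `n`-th power. -/
lemma norm_solve [IsAlgClosed K] (hζ : IsPrimitiveRoot ζ n)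
    (hσ : σ w = algebraMap K[X] L (C ζ) * w) {p : K[X]} (hp : p ≠ 0) :
    ∃ (u : integralClosure K[X] L) (r : K[X]), u ≠ 0 ∧ r ≠ 0 ∧
      (∏ k ∈ Finset.range n, galR (σ ^ k) u) * algebraMap K[X] (integralClosure K[X] L) p =
        algebraMap K[X] (integralClosure K[X] L) r ^ n := by
  have h1 := free h
  have h2 := h.moduleFinite
  obtain ⟨z, t, ht, hz⟩ := tsen (Module.finBasis K[X] (integralClosure K[X] L)) (p ^ (n - 1))
  rw [finrank_R h] at hz
  have hn := h.prime.pos
  have h3 : Algebra.norm K[X] z * p = (p * t) ^ n := by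
    rw [hz, mul_pow, mul_right_comm, ← pow_succ, Nat.sub_add_cancel hn]
  refine ⟨z, p * t, ?_, mul_ne_zero hp ht, ?_⟩
  · rintro rfl
    rw [Algebra.norm_zero, zero_mul] at h3
    exact pow_ne_zero n (mul_ne_zero hp ht) h3.symm
  · rw [← norm_prodR h hζ hσ, ← map_mul, h3, map_pow]

/-- Every ideal class is of the form `c / σ c`. -/
theorem exists_div [IsAlgClosed K] (hζ : IsPrimitiveRoot ζ n)
    (hσ : σ w = algebraMap K[X] L (C ζ) * w)
    {I : Ideal (integralClosure K[X] L)} (hI : I ≠ ⊥) :
    ∃ (D : Ideal (integralClosure K[X] L)) (u r : integralClosure K[X] L),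
      D ≠ ⊥ ∧ u ≠ 0 ∧ r ≠ 0 ∧
      Ideal.span {u} * (I * D.map (galR σ)) = Ideal.span {r} * D := by
  have := h.isDedekindDomain
  obtain ⟨p, hp, hNp⟩ := norm_ideal h hζ hσ hI
  obtain ⟨u, r, hu, hr, hur⟩ := norm_solve h hζ hσ hp
  have hr0' : algebraMap K[X] (integralClosure K[X] L) r ≠ 0 := algR_ne h hr
  obtain ⟨r', hr'⟩ : ∃ r' : integralClosure K[X] L,
    r' = algebraMap K[X] (integralClosure K[X] L) r := ⟨_, rfl⟩
  rw [← hr'] at hur
  have hr0 : r' ≠ 0 := by rw [hr']; exact hr0'
  obtain ⟨N, rfl⟩ : ∃ N, n = N + 1 := ⟨n - 1, (Nat.sub_add_cancel h.prime.pos).symm⟩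
  -- the partial products
  let v : ℕ → integralClosure K[X] L := fun k => ∏ j ∈ Finset.range k, galR (σ ^ j) u
  have hv : ∀ k, v (k + 1) = u * galR σ (v k) := by
    intro k
    change ∏ j ∈ Finset.range (k + 1), galR (σ ^ j) u = _
    rw [Finset.prod_range_succ', pow_zero, galR_one, mul_comm, map_prod]
    congr 1
    refine Finset.prod_congr rfl fun j _ => ?_
    rw [pow_succ', galR_mul]
  let a : ℕ → Ideal (integralClosure K[X] L) := fun k => Ideal.span {r' ^ (N + 1 - k) * v k} * Nm σ k I
  let D : Ideal (integralClosure K[X] L) := ∑ k ∈ Finset.range (N + 1), Ideal.span {r' ^ (N - k) * v k} * Nm σ k I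
  have hgr : galR σ r' = r' := by rw [hr']; exact galR_algebraMap σ r
  have e1 : Ideal.span {r'} * D = ∑ k ∈ Finset.range (N + 1), a k := by
    change Ideal.span {r'} * ∑ k ∈ Finset.range (N + 1), _ = _
    rw [Finset.mul_sum]
    refine Finset.sum_congr rfl fun k hk => ?_
    rw [Finset.mem_range] at hk
    change _ = Ideal.span {r' ^ (N + 1 - k) * v k} * Nm σ k I
    rw [← mul_assoc, Ideal.span_singleton_mul_span_singleton, ← mul_assoc, ← pow_succ',
      show N - k + 1 = N + 1 - k by omega]
  have e2 : Ideal.span {u} * (I * D.map (galR σ)) = ∑ k ∈ Finset.range (N + 1), a (k + 1) := by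
    have h1 : D.map (galR σ) = ∑ k ∈ Finset.range (N + 1),
        (Ideal.span {r' ^ (N - k) * v k} * Nm σ k I).map (galR σ) :=
      map_sum (Ideal.mapHom (galR σ)) _ _
    rw [h1, Finset.mul_sum, Finset.mul_sum]
    refine Finset.sum_congr rfl fun k hk => ?_
    change _ = Ideal.span {r' ^ (N + 1 - (k + 1)) * v (k + 1)} * Nm σ (k + 1) I
    rw [Ideal.map_mul, map_galR_span, map_mul, map_pow, hgr, Nm_succ, hv,
      show N + 1 - (k + 1) = N - k by omega]
    calc Ideal.span {u} * (I * (Ideal.span {r' ^ (N - k) * galR σ (v k)} *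
          (Nm σ k I).map (galR σ)))
        = (Ideal.span {u} * Ideal.span {r' ^ (N - k) * galR σ (v k)}) *
          (I * (Nm σ k I).map (galR σ)) := by ring
      _ = _ := by
        rw [Ideal.span_singleton_mul_span_singleton,
          show u * (r' ^ (N - k) * galR σ (v k)) = r' ^ (N - k) * (u * galR σ (v k)) by ring]
  have e3 : a 0 = a (N + 1) := by
    change Ideal.span {r' ^ (N + 1 - 0) * v 0} * Nm σ 0 I =
      Ideal.span {r' ^ (N + 1 - (N + 1)) * v (N + 1)} * Nm σ (N + 1) I
    rw [hNp, Nat.sub_self, pow_zero, one_mul, Ideal.span_singleton_mul_span_singleton]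
    have h1 : v (N + 1) * algebraMap K[X] (integralClosure K[X] L) p = r' ^ (N + 1) := hur
    have h2 : v 0 = 1 := Finset.prod_range_zero _
    have h3 : Nm σ 0 I = 1 := Finset.prod_range_zero _
    rw [h1, h2, h3, mul_one, mul_one, Nat.sub_zero]
  have e4 : ∑ k ∈ Finset.range (N + 1), a (k + 1) = ∑ k ∈ Finset.range (N + 1), a k := by
    rw [Finset.sum_range_succ (fun k => a (k + 1)), ← e3, Finset.sum_range_succ' a]
  refine ⟨D, u, r', ?_, hu, hr0, ?_⟩
  · intro h0
    have h1 : Ideal.span {r' ^ (N - 0) * v 0} * Nm σ 0 I ≤ D := by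
      change _ ≤ ∑ k ∈ Finset.range (N + 1), Ideal.span {r' ^ (N - k) * v k} * Nm σ k I
      rw [Finset.sum_range_succ' (fun k => Ideal.span {r' ^ (N - k) * v k} * Nm σ k I),
        Ideal.add_eq_sup]
      exact le_sup_right
    have h2 : v 0 = 1 := Finset.prod_range_zero _
    have h3 : Nm σ 0 I = 1 := Finset.prod_range_zero _
    rw [h0, h2, h3, mul_one, mul_one, le_bot_iff, Ideal.span_singleton_eq_bot] at h1
    exact pow_ne_zero _ hr0 h1
  · rw [e1, e2, e4]

end

end Pool.Agent.Helper71.SE
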