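import Mathlib

/-!
Group theory: coinvariants of a divisible torsion group.
-/

set_option autoImplicit false

namespace Pool.Agent.Helper71.SE

section Index

lemma card_coker {G : Type*} [AddCommGroup G] [Finite G] (f : G →+ G) :
    Nat.card (G ⧸ f.range) = Nat.card f.ker := by
  have h1 := AddSubgroup.card_eq_card_quotient_mul_card_addSubgroup f.range
  have h2 := AddSubgroup.card_eq_card_quotient_mul_card_addSubgroup f.ker
  have h3 : Nat.card (G ⧸ f.ker) = Nat.card f.range :=
    Nat.card_congr (QuotientAddGroup.quotientKerEquivRange f).toEquiv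
  rw [h3, h1, mul_comm] at h2
  exact Nat.eq_of_mul_eq_mul_left Nat.card_pos h2

lemma finite_preimage {G : Type*} [AddCommGroup G] (f : G →+ G) (hf : (f.ker : Set G).Finite)
    {S : Set G} (hS : S.Finite) : (f ⁻¹' S).Finite := by
  have h1 : f ⁻¹' S = ⋃ y ∈ S, f ⁻¹' {y} := by
    ext x
    simp
  rw [h1]
  refine hS.biUnion fun y _ => ?_
  rcases Set.eq_empty_or_nonempty (f ⁻¹' {y}) with h2 | ⟨x₀, hx₀⟩
  · rw [h2]
    exact Set.finite_empty
  · refine (hf.image (fun z => x₀ + z)).subset ?_
    intro x hx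
    refine ⟨x - x₀, ?_, by simp⟩
    change f (x - x₀) = 0
    rw [map_sub, show f x = y from hx, show f x₀ = y from hx₀, sub_self]

end Index

/-- The powers of an endomorphism. -/
def dp {G : Type*} [AddCommGroup G] (δ : G →+ G) : ℕ → (G →+ G)
  | 0 => AddMonoidHom.id G
  | k + 1 => (dp δ k).comp δ

section

variable {P : Type*} [AddCommGroup P] (δ η : P →+ P)

lemma dp_comm (hcomm : ∀ x, δ (η x) = η (δ x)) (k : ℕ) (x : P) :
    dp δ k (η x) = η (dp δ k x) := by
  induction k generalizing x with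
  | zero => rfl
  | succ k ih =>
    change dp δ k (δ (η x)) = η (dp δ k (δ x))
    rw [hcomm, ih]

lemma dp_succ' (k : ℕ) (x : P) : dp δ (k + 1) x = δ (dp δ k x) := by
  induction k generalizing x with
  | zero => rfl
  | succ k ih =>
    change dp δ (k + 1) (δ x) = δ (dp δ k (δ x))
    rw [ih]

lemma dp_ker_mono {j k : ℕ} (hjk : j ≤ k) {x : P} (hx : dp δ j x = 0) : dp δ k x = 0 := by
  induction k, hjk using Nat.le_induction with
  | base => exact hx
  | succ k _ ih => rw [dp_succ', ih, map_zero]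

lemma dp_ker_finite (hδ : (δ.ker : Set P).Finite) (k : ℕ) : ((dp δ k).ker : Set P).Finite := by
  induction k with
  | zero =>
    have : ((dp δ 0).ker : Set P) = {0} := by
      ext x
      exact Iff.rfl
    rw [this]
    exact Set.finite_singleton _
  | succ k ih =>
    have h1 : ((dp δ (k + 1)).ker : Set P) = δ ⁻¹' ((dp δ k).ker : Set P) := rfl
    rw [h1]
    exact finite_preimage δ hδ ih

/-- An endomorphism with finite kernel of a torsion group which is divisible with respect to a
commuting endomorphism with finite kernel is surjective. -/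
theorem coker_trivial (hcomm : ∀ x, δ (η x) = η (δ x)) (hsurj : Function.Surjective δ)
    (htor : ∀ x, ∃ k, dp δ k x = 0) (hδ : (δ.ker : Set P).Finite) (hη : (η.ker : Set P).Finite) :
    Function.Surjective η := by
  classical
  have hηf : Finite η.ker := hη
  set B := Nat.card η.ker with hB
  let q : P →+ P ⧸ η.range := QuotientAddGroup.mk' η.range
  have hq : Function.Surjective q := QuotientAddGroup.mk'_surjective _
  have hqk : ∀ x, q x = 0 ↔ x ∈ η.range := fun x => QuotientAddGroup.eq_zero_iff x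
  -- the quotient is finite
  have hfin : Finite (P ⧸ η.range) := by
    by_contra hinf
    rw [not_finite_iff_infinite] at hinf
    obtain ⟨S, hS⟩ := Infinite.exists_subset_card_eq (P ⧸ η.range) (B + 1)
    choose rep hrep using hq
    choose t ht using htor
    let M := S.sup (fun z => t (rep z))
    let G : AddSubgroup P := (dp δ M).ker
    have hGfin : Finite G := dp_ker_finite δ hδ M
    have hηG : ∀ x ∈ G, η x ∈ G := by
      intro x hx
      change dp δ M (η x) = 0
      rw [dp_comm δ η hcomm, show dp δ M x = 0 from hx, map_zero]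
    let ηG : G →+ G :=
      { toFun := fun x => ⟨η x.1, hηG x.1 x.2⟩
        map_zero' := Subtype.ext (map_zero η)
        map_add' := fun x y => Subtype.ext (map_add η x.1 y.1) }
    have h1 := card_coker ηG
    have h2 : Nat.card ηG.ker ≤ B := by
      refine Nat.card_le_card_of_injective (fun x : ηG.ker => (⟨x.1.1, ?_⟩ : η.ker)) ?_
      · have h3 : ηG x.1 = 0 := x.2
        exact congrArg Subtype.val h3
      · intro x y hxy
        exact Subtype.ext (Subtype.ext (congrArg (fun z : η.ker => (z : P)) hxy))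
    have hmem : ∀ z ∈ S, rep z ∈ G := fun z hz =>
      dp_ker_mono δ (Finset.le_sup (f := fun z => t (rep z)) hz) (ht (rep z))
    let F : S → G ⧸ ηG.range := fun z => QuotientAddGroup.mk ⟨rep z.1, hmem z.1 z.2⟩
    have hF : Function.Injective F := by
      intro x y hxy
      have h3 := QuotientAddGroup.eq.1 hxy
      obtain ⟨g, hg⟩ := h3
      have h4 : η g.1 = -rep x.1 + rep y.1 := congrArg Subtype.val hg
      have h5 : q (-rep x.1 + rep y.1) = 0 := (hqk _).2 ⟨g.1, h4⟩
      rw [map_add, map_neg, hrep, hrep, neg_add_eq_zero] at h5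
      exact Subtype.ext h5
    have h3 := Nat.card_le_card_of_injective F hF
    rw [h1, Nat.card_eq_fintype_card, Fintype.card_coe, hS] at h3
    omega
  -- `δ` acts injectively on the quotient
  let δQ : P ⧸ η.range →+ P ⧸ η.range := QuotientAddGroup.map _ _ δ (by
    rintro _ ⟨x, rfl⟩
    exact ⟨δ x, (hcomm x).symm⟩)
  have hδQ : ∀ x, δQ (q x) = q (δ x) := fun x => rfl
  have hsQ : Function.Surjective δQ := by
    intro z
    obtain ⟨x, rfl⟩ := hq z
    obtain ⟨y, rfl⟩ := hsurj x
    exact ⟨q y, rfl⟩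
  have hiQ : Function.Injective δQ := Finite.injective_iff_surjective.2 hsQ
  have hzero : ∀ k x, dp δ k x = 0 → q x = 0 := by
    intro k
    induction k with
    | zero =>
      intro x hx
      have : x = 0 := hx
      rw [this, map_zero]
    | succ k ih =>
      intro x hx
      have h1 := ih (δ x) hx
      rw [← hδQ] at h1
      exact hiQ (h1.trans (map_zero _).symm)
  intro x
  obtain ⟨k, hk⟩ := htor x
  exact (hqk x).1 (hzero k x hk)

end

section Char

variable {C : Type*} [AddCommGroup C] {n : ℕ} (hn : n.Prime) (T : AddMonoid.End C)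

include hn in
lemma one_sub_pow (hTn : T ^ n = 1) :
    ∃ r : AddMonoid.End C, (1 - T) ^ n = (n : AddMonoid.End C) * r := by
  have hcom : Commute (1 : AddMonoid.End C) (-T) := Commute.one_left _
  obtain ⟨r, hr⟩ := hcom.exists_add_pow_prime_eq hn
  rw [← sub_eq_add_neg, one_pow] at hr
  rcases hn.eq_two_or_odd' with h2 | h2
  · refine ⟨1 + 1 * (-T) * r, ?_⟩
    rw [hr]
    have h3 : (-T) ^ n = 1 := by
      rw [neg_pow, hTn, h2]
      norm_num
    have h4 : (n : AddMonoid.End C) = 1 + 1 := by
      rw [h2]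
      norm_num
    rw [h3, h4]
    noncomm_ring
  · refine ⟨1 * (-T) * r, ?_⟩
    rw [hr, h2.neg_pow, hTn]
    rw [add_neg_cancel, zero_add, mul_one, one_mul, mul_assoc]

lemma n_eq (hsum : ∑ k ∈ Finset.range n, T ^ k = 0) :
    ∃ Q : AddMonoid.End C, (n : AddMonoid.End C) = Q * (1 - T) := by
  refine ⟨∑ k ∈ Finset.range n, ∑ j ∈ Finset.range k, T ^ j, ?_⟩
  rw [Finset.sum_mul]
  simp_rw [geom_sum_mul_neg]
  rw [Finset.sum_sub_distrib, Finset.sum_const, Finset.card_range, nsmul_one, hsum, sub_zero]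

/-- The `n`-primary part. -/
def prim (C : Type*) [AddCommGroup C] (n : ℕ) : AddSubgroup C where
  carrier := {c | ∃ k : ℕ, n ^ k • c = 0}
  zero_mem' := ⟨0, by simp⟩
  add_mem' := by
    rintro a b ⟨j, hj⟩ ⟨k, hk⟩
    refine ⟨j + k, ?_⟩
    rw [smul_add, pow_add, mul_comm (n ^ j), mul_smul, hj, smul_zero, zero_add, mul_comm,
      mul_smul, hk, smul_zero]
  neg_mem' := by
    rintro a ⟨j, hj⟩
    exact ⟨j, by rw [smul_neg, hj, neg_zero]⟩

lemma map_prim (f : C →+ C) {c : C} (hc : c ∈ prim C n) : f c ∈ prim C n := by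
  obtain ⟨k, hk⟩ := hc
  exact ⟨k, by rw [← map_nsmul, hk, map_zero]⟩

/-- The restriction to the `n`-primary part. -/
def resP (n : ℕ) (f : C →+ C) : prim C n →+ prim C n where
  toFun x := ⟨f x.1, map_prim f x.2⟩
  map_zero' := Subtype.ext (map_zero f)
  map_add' x y := Subtype.ext (map_add f x.1 y.1)

lemma dp_resP (f : C →+ C) (k : ℕ) (x : prim C n) :
    ((dp (resP n f) k x : prim C n) : C) = dp f k x.1 := by
  induction k generalizing x with
  | zero => rfl
  | succ k ih => exact ih (resP n f x)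

lemma dp_pow (k : ℕ) (x : C) : dp (T : C →+ C) k x = (T ^ k) x := by
  induction k generalizing x with
  | zero => rfl
  | succ k ih =>
    rw [pow_succ]
    exact ih (T x)

include hn in
/-- The main group theoretic statement. -/
theorem exists_sub (F : C →+ C) (hTF : ∀ c, T (F c) = F (T c)) (hTn : T ^ n = 1)
    (hsum : ∑ k ∈ Finset.range n, T ^ k = 0) (hdiv : ∀ c, ∃ d, d - T d = c)
    (hker : {c | T c = c}.Finite) (hfin : {c | c ∈ prim C n ∧ F c = c}.Finite)
    {c : C} (hc : c ∈ prim C n) : ∃ d ∈ prim C n, F d - d = c := by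
  obtain ⟨r, hr⟩ := one_sub_pow hn T hTn
  obtain ⟨Q, hQ⟩ := n_eq T hsum
  let δ : C →+ C := (1 - T : AddMonoid.End C)
  have hδ : ∀ x, δ x = x - T x := fun x => rfl
  let η : C →+ C := F - AddMonoidHom.id C
  have hη : ∀ x, η x = F x - x := fun x => rfl
  -- elements of the primary part are killed by powers of `δ`
  have htor : ∀ x ∈ prim C n, ∃ k, dp δ k x = 0 := by
    rintro x ⟨k, hk⟩
    refine ⟨n * k, ?_⟩
    have h1 : dp δ (n * k) x = ((1 - T) ^ (n * k)) x := dp_pow (1 - T) (n * k) x
    rw [h1, pow_mul, hr, (Nat.cast_commute n r).mul_pow,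
      ((Nat.cast_commute n r).pow_pow k k).eq]
    have h2 : ((n : AddMonoid.End C) ^ k) x = n ^ k • x := by
      rw [← Nat.cast_pow]
      rfl
    change (r ^ k) (((n : AddMonoid.End C) ^ k) x) = 0
    rw [h2, hk, map_zero]
  have htor' : ∀ k x, dp δ k x = 0 → n ^ k • x = 0 := by
    intro k
    induction k with
    | zero =>
      intro x hx
      have : x = 0 := hx
      rw [this, smul_zero]
    | succ k ih =>
      intro x hx
      have h1 := ih (δ x) hx
      have h2 : n • x = Q (δ x) := by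
        have h3 : ((n : AddMonoid.End C)) x = (Q * (1 - T)) x := by rw [hQ]
        exact h3
      rw [pow_succ, mul_smul, h2, ← map_nsmul, h1, map_zero]
  have key := coker_trivial (resP n δ) (resP n η) ?_ ?_ ?_ ?_ ?_
  · obtain ⟨d, hd⟩ := key ⟨c, hc⟩
    exact ⟨d.1, d.2, congrArg Subtype.val hd⟩
  · intro x
    apply Subtype.ext
    change δ (η x.1) = η (δ x.1)
    rw [hδ, hη, hη, hδ, map_sub, map_sub, hTF]
    abel
  · rintro ⟨x, hx⟩
    obtain ⟨d, hd⟩ := hdiv x
    obtain ⟨k, hk⟩ := htor x hx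
    have h1 : dp δ (k + 1) d = 0 := by
      change dp δ k (δ d) = 0
      rw [hδ, hd, hk]
    exact ⟨⟨d, k + 1, htor' _ _ h1⟩, Subtype.ext hd⟩
  · rintro ⟨x, hx⟩
    obtain ⟨k, hk⟩ := htor x hx
    exact ⟨k, Subtype.ext (by rw [dp_resP]; exact hk)⟩
  · refine Set.Finite.of_finite_image (f := Subtype.val) (hker.subset ?_)
      Subtype.val_injective.injOn
    rintro _ ⟨x, hx, rfl⟩
    have h1 : δ x.1 = 0 := congrArg Subtype.val hx
    rw [hδ] at h1
    exact (sub_eq_zero.1 h1).symm
  · refine Set.Finite.of_finite_image (f := Subtype.val) (hfin.subset ?_)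
      Subtype.val_injective.injOn
    rintro _ ⟨x, hx, rfl⟩
    have h1 : η x.1 = 0 := congrArg Subtype.val hx
    rw [hη] at h1
    exact ⟨x.2, sub_eq_zero.1 h1⟩

end Char

lemma end_pow_apply {A : Type*} [AddCommGroup A] (T : AddMonoid.End A) (k : ℕ) (a : A) :
    (T ^ k) a = T^[k] a := by
  induction k generalizing a with
  | zero => rfl
  | succ k ih =>
    rw [pow_succ, Function.iterate_succ_apply, ← ih]
    rfl

/-- The additive endomorphism of the additive version of a group. -/
def addEnd {C : Type*} [CommGroup C] (T : C →* C) : AddMonoid.End (Additive C) :=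
  MonoidHom.toAdditive T

/-- The multiplicative version of `exists_sub`. -/
theorem exists_quot {C : Type*} [CommGroup C] {n : ℕ} (hn : n.Prime) (T F : C →* C)
    (hTF : ∀ c, T (F c) = F (T c)) (hTn : ∀ c, T^[n] c = c)
    (hsum : ∀ c, ∏ k ∈ Finset.range n, T^[k] c = 1) (hdiv : ∀ c, ∃ d, d = c * T d)
    (hker : {c | T c = c}.Finite) (hfin : {c | (∃ k : ℕ, c ^ n ^ k = 1) ∧ F c = c}.Finite)
    {c : C} (hc : ∃ k : ℕ, c ^ n ^ k = 1) : ∃ d, (∃ k : ℕ, d ^ n ^ k = 1) ∧ F d = c * d := by
  have h1 : (addEnd T) ^ n = 1 := by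
    apply AddMonoidHom.ext
    intro a
    exact (end_pow_apply (addEnd T) n a).trans (hTn a)
  have h2 : ∑ k ∈ Finset.range n, (addEnd T) ^ k = 0 := by
    apply AddMonoidHom.ext
    intro a
    refine (AddMonoidHom.finsetSum_apply _ _ _).trans ?_
    refine (Finset.sum_congr rfl fun k _ => end_pow_apply (addEnd T) k a).trans ?_
    exact hsum a
  have h3 : ∀ c, ∃ d, d - (addEnd T) d = c := by
    intro a
    obtain ⟨d, hd⟩ := hdiv (Additive.toMul a)
    refine ⟨Additive.ofMul d, ?_⟩
    rw [sub_eq_iff_eq_add]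
    exact hd
  obtain ⟨d, hd, hdc⟩ := exists_sub hn (addEnd T) (addEnd F) (fun a => hTF a) h1 h2 h3 hker hfin
    (c := Additive.ofMul c) hc
  refine ⟨Additive.toMul d, hd, ?_⟩
  rw [sub_eq_iff_eq_add] at hdc
  exact hdc

end Pool.Agent.Helper71.SE
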