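import Pool.Agent.Helper71.SE.Fixed
import Pool.Agent.Helper71.SE.Grp
import Pool.Agent.Helper71.SE.Div
import Pool.Agent.Helper91.Section.SE.Cls

/-!
Invariant characters of the `n`-primary part of the class group of a cyclic cover are trivial.
-/

universe u

set_option autoImplicit false

namespace Pool.Agent.Helper71.SE

open Polynomial nonZeroDivisors Pool.Agent.Helper91.SE

/-- The class of a nonzero ideal. -/
noncomputable def cls {R : Type*} [CommRing R] [IsDedekindDomain R] (I : Ideal R) (hI : I ≠ ⊥) :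
    ClassGroup R := ClassGroup.mk0 ⟨I, mem_nonZeroDivisors_iff_ne_zero.2 hI⟩

section

variable {R : Type*} [CommRing R] [IsDedekindDomain R]

lemma cls_rep (c : ClassGroup R) : ∃ (I : Ideal R) (hI : I ≠ ⊥), cls I hI = c := by
  obtain ⟨I, hI, hc⟩ := exists_ideal_rep c
  exact ⟨I, nonZeroDivisors.ne_zero hI, hc⟩

lemma cls_congr {I J : Ideal R} {hI : I ≠ ⊥} (hIJ : I = J) :
    cls I hI = cls J (hIJ ▸ hI) := by
  subst hIJ
  rfl

lemma cls_eq_iff {I J : Ideal R} {hI : I ≠ ⊥} {hJ : J ≠ ⊥} :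
    cls I hI = cls J hJ ↔ ∃ x y : R, x ≠ 0 ∧ y ≠ 0 ∧ Ideal.span {x} * I = Ideal.span {y} * J := by
  unfold cls
  rw [ClassGroup.mk0_eq_mk0_iff]
  constructor
  · rintro ⟨x, y, hx, hy, hxy⟩
    exact ⟨x, y, hx, hy, hxy⟩
  · rintro ⟨x, y, hx, hy, hxy⟩
    exact ⟨x, y, hx, hy, hxy⟩

lemma cls_mul {I J : Ideal R} (hI : I ≠ ⊥) (hJ : J ≠ ⊥) :
    cls (I * J) (mul_ne_zero hI hJ) = cls I hI * cls J hJ := by
  unfold cls
  rw [← map_mul]
  rfl

lemma cls_one : cls (1 : Ideal R) one_ne_zero = 1 := by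
  unfold cls
  exact map_one _

lemma cls_pow {I : Ideal R} (hI : I ≠ ⊥) (k : ℕ) :
    cls (I ^ k) (pow_ne_zero k hI) = cls I hI ^ k := by
  unfold cls
  rw [← map_pow]
  rfl

lemma cls_span {x : R} (hx : Ideal.span {x} ≠ ⊥) : cls (Ideal.span {x}) hx = 1 := by
  have hx0 : x ≠ 0 := fun h0 => hx (by rw [h0, Ideal.span_singleton_eq_bot.2 rfl])
  rw [← cls_one, cls_eq_iff]
  exact ⟨1, x, one_ne_zero, hx0, by rw [Ideal.span_singleton_one, Ideal.top_mul, mul_one]⟩

lemma cls_prod {ι : Type*} (S : Finset ι) (I : ι → Ideal R) (hI : ∀ i, I i ≠ ⊥) :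
    cls (∏ i ∈ S, I i) (Finset.prod_ne_zero_iff.2 fun i _ => hI i) = ∏ i ∈ S, cls (I i) (hI i) := by
  classical
  induction S using Finset.induction_on with
  | empty =>
    exact (cls_congr Finset.prod_empty).trans (cls_one.trans Finset.prod_empty.symm)
  | insert a S ha ih =>
    refine (cls_congr (Finset.prod_insert ha)).trans ?_
    refine Eq.trans ?_ (Finset.prod_insert ha).symm
    exact (cls_mul (hI a) _).trans (congrArg _ ih)

omit [IsDedekindDomain R] in
lemma map_comm (f g : R ≃+* R) (hfg : ∀ z, f (g z) = g (f z)) (I : Ideal R) :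
    (I.map f).map g = (I.map g).map f := by
  ext z
  rw [Ideal.mem_map_of_equiv, Ideal.mem_map_of_equiv]
  constructor
  · rintro ⟨x, hx, rfl⟩
    obtain ⟨y, hy, rfl⟩ := (Ideal.mem_map_of_equiv _ _).1 hx
    exact ⟨g y, Ideal.mem_map_of_mem _ hy, hfg y⟩
  · rintro ⟨x, hx, rfl⟩
    obtain ⟨y, hy, rfl⟩ := (Ideal.mem_map_of_equiv _ _).1 hx
    exact ⟨f y, Ideal.mem_map_of_mem _ hy, (hfg y).symm⟩

lemma exists_clsHom (g : R ≃+* R) : ∃ F : ClassGroup R →* ClassGroup R,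
    ∀ c, F c = ClassGroup.mulEquiv g c := ⟨(ClassGroup.mulEquiv g).toMonoidHom, fun _ => rfl⟩

lemma cls_map (g : R ≃+* R) {I : Ideal R} (hI : I ≠ ⊥) :
    ClassGroup.mulEquiv g (cls I hI) = cls (I.map g) (nonZeroDivisors.ne_zero (map_mem_nzd g hI)) :=
  mulEquiv_mk0 g ⟨I, mem_nonZeroDivisors_iff_ne_zero.2 hI⟩ (map_mem_nzd _ hI)

end

end Pool.Agent.Helper71.SE

namespace Pool.Agent.Helper91.SE

open Polynomial nonZeroDivisors Pool.Agent.Helper71.SE

section

variable {K L : Type u} [Field K] [Field L] [Algebra K[X] L] [Algebra (RatFunc K) L]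
    [IsScalarTower K[X] (RatFunc K) L] [IsAlgClosed K]
    {n : ℕ} {s : ℕ} {e : Fin s → K} {m : Fin s → ℕ} {w : L}

/-- B3 + B4: invariant characters of the `n`-primary part of the class group are trivial -/
theorem IsCyc.char_trivial (h : IsCyc K L n e m w) {ζ : K} (hζ : IsPrimitiveRoot ζ n)
    {σ : L ≃ₐ[RatFunc K] L} (hσ : σ w = algebraMap K[X] L (C ζ) * w)
    (φ : integralClosure K[X] L ≃+* integralClosure K[X] L)
    (hφσ : ∀ z, φ (galR σ z) = galR σ (φ z))
    (hfin : {c : ClassGroup (integralClosure K[X] L) |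
      (∃ k : ℕ, c ^ n ^ k = 1) ∧ ClassGroup.mulEquiv φ c = c}.Finite)
    {A : Type*} [CommGroup A] (χ : ClassGroup (integralClosure K[X] L) → A)
    (hmul : ∀ c d, (∃ k : ℕ, c ^ n ^ k = 1) → (∃ k : ℕ, d ^ n ^ k = 1) → χ (c * d) = χ c * χ d)
    (hinv : ∀ c, (∃ k : ℕ, c ^ n ^ k = 1) → χ (ClassGroup.mulEquiv φ c) = χ c)
    (c : ClassGroup (integralClosure K[X] L)) (hc : ∃ k : ℕ, c ^ n ^ k = 1) : χ c = 1 := by
  classical
  have := h.isDedekindDomain
  obtain ⟨T, hT'⟩ := exists_clsHom (galR σ)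
  have hT : ∀ (I : Ideal (integralClosure K[X] L)) (hI : I ≠ ⊥),
      T (cls I hI) = cls (I.map (galR σ)) (map_galR_ne hI) := by
    intro I hI
    rw [hT', cls_map]
  obtain ⟨F, hF⟩ := exists_clsHom φ
  have hF' : ∀ (I : Ideal (integralClosure K[X] L)) (hI : I ≠ ⊥),
      F (cls I hI) = cls (I.map φ) (nonZeroDivisors.ne_zero (map_mem_nzd φ hI)) := by
    intro I hI
    rw [hF, cls_map]
  have hTpow : ∀ (k : ℕ) (I : Ideal (integralClosure K[X] L)) (hI : I ≠ ⊥),
      T^[k] (cls I hI) = cls (I.map (galR (σ ^ k))) (map_galR_ne hI) := by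
    intro k
    induction k with
    | zero =>
      intro I hI
      exact cls_congr (map_galR_one I).symm
    | succ k ih =>
      intro I hI
      rw [Function.iterate_succ_apply, hT, ih]
      refine cls_congr ?_
      rw [← map_galR_mul, pow_succ]
  have hTF : ∀ c, T (F c) = F (T c) := by
    intro c
    obtain ⟨I, hI, rfl⟩ := cls_rep c
    rw [hF', hT, hT, hF']
    simp only [map_comm φ (galR σ) hφσ I]
  have hTn : ∀ c, T^[n] c = c := by
    intro c
    obtain ⟨I, hI, rfl⟩ := cls_rep c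
    rw [hTpow]
    refine cls_congr ?_
    rw [pow_n h hσ hζ, map_galR_one]
  have hsum : ∀ c, ∏ k ∈ Finset.range n, T^[k] c = 1 := by
    intro c
    obtain ⟨I, hI, rfl⟩ := cls_rep c
    obtain ⟨p, hp, hNp⟩ := norm_ideal h hζ hσ hI
    have h3 := cls_prod (Finset.range n) (fun k => I.map (galR (σ ^ k)))
      (fun k => map_galR_ne hI)
    refine (Finset.prod_congr rfl fun k _ => hTpow k I hI).trans ?_
    rw [← h3]
    exact (cls_congr hNp).trans (cls_span _)
  have hdiv : ∀ c, ∃ d, d = c * T d := by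
    intro c
    obtain ⟨I, hI, rfl⟩ := cls_rep c
    obtain ⟨D, u, r, hD, hu, hr, hur⟩ := exists_div h hζ hσ hI
    refine ⟨cls D hD, ?_⟩
    rw [hT, ← cls_mul]
    exact cls_eq_iff.2 ⟨r, u, hr, hu, hur.symm⟩
  have hker : {c | T c = c}.Finite := by
    have hram := fun i => exists_ram_pt h i
    choose ψ hψ hψe hψ0 hψn using hram
    refine (Set.finite_range (fun a : Fin s → Fin n =>
      ∏ i, cls (RingHom.ker (ψ i)) (hψ0 i) ^ (a i : ℕ))).subset ?_
    intro c hc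
    obtain ⟨I, hI, rfl⟩ := cls_rep c
    have h1 : T (cls I hI) = cls I hI := hc
    rw [hT, cls_eq_iff] at h1
    obtain ⟨a, x, y, hx, hy, hxy⟩ := h.fixed_class hζ hσ (P := fun i => RingHom.ker (ψ i))
      (fun i => (hψn i).symm) hI h1
    have hn := h.prime.pos
    refine ⟨fun i => ⟨a i % n, Nat.mod_lt _ hn⟩, ?_⟩
    have h2 : cls I hI = cls (∏ i, RingHom.ker (ψ i) ^ a i)
        (Finset.prod_ne_zero_iff.2 fun i _ => pow_ne_zero _ (hψ0 i)) :=
      cls_eq_iff.2 ⟨x, y, hx, hy, hxy⟩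
    rw [h2]
    refine Eq.trans ?_ (cls_prod Finset.univ (fun i => RingHom.ker (ψ i) ^ a i)
      fun i => pow_ne_zero _ (hψ0 i)).symm
    refine Finset.prod_congr rfl fun i _ => ?_
    rw [cls_pow (hψ0 i)]
    have h3 : cls (RingHom.ker (ψ i)) (hψ0 i) ^ n = 1 := by
      rw [← cls_pow]
      exact (cls_congr (hψn i).symm).trans (cls_span _)
    exact (pow_eq_pow_mod (a i) h3).symm
  have hfin' : {c | (∃ k : ℕ, c ^ n ^ k = 1) ∧ F c = c}.Finite := by
    refine hfin.subset ?_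
    rintro c ⟨hc, hc'⟩
    exact ⟨hc, (hF c).symm.trans hc'⟩
  obtain ⟨d, hd, hdc⟩ := exists_quot h.prime T F hTF hTn hsum hdiv hker hfin' hc
  have h3 := hinv _ hd
  rw [← hF, hdc, hmul _ _ hc hd] at h3
  exact mul_eq_right.1 h3

end

end Pool.Agent.Helper91.SE
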