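import Pool.Agent.Helper71.SE.Aut

/-!
Hilbert's theorem 90 for a cyclic cover.
-/

universe u

set_option autoImplicit false

namespace Pool.Agent.Helper71.SE

open Polynomial Pool.Agent.Helper91.SE

variable {K L : Type u} [Field K] [Field L] [Algebra K[X] L] [Algebra (RatFunc K) L]
    [IsScalarTower K[X] (RatFunc K) L]
    {n : ℕ} {s : ℕ} {e : Fin s → K} {m : Fin s → ℕ} {w : L}

theorem hilbert90 (h : IsCyc K L n e m w)
    {ζ : K} {σ : L ≃ₐ[RatFunc K] L} (hσ : σ w = algebraMap K[X] L (C ζ) * w)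
    (hζ : IsPrimitiveRoot ζ n) {a : L} (ha : Algebra.norm (RatFunc K) a = 1) :
    ∃ b : L, b ≠ 0 ∧ a * σ b = b := by
  classical
  have hn := h.prime.pos
  have hprod := norm_prod h hσ hζ a
  rw [ha, map_one] at hprod
  let A : ℕ → L := fun k => ∏ j ∈ Finset.range k, (σ ^ j) a
  have hA : ∀ k, A (k + 1) = a * σ (A k) := by
    intro k
    change ∏ j ∈ Finset.range (k + 1), (σ ^ j) a = a * σ (∏ j ∈ Finset.range k, (σ ^ j) a)
    rw [Finset.prod_range_succ', pow_zero, AlgEquiv.one_apply, mul_comm, map_prod]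
    congr 1
    refine Finset.prod_congr rfl fun j _ => ?_
    rw [pow_succ', AlgEquiv.mul_apply]
  have hli := (linearIndependent_monoidHom L L).comp
    (fun k : Fin n => ((σ ^ (k : ℕ) : L ≃ₐ[RatFunc K] L) : L →* L)) (by
      intro i j hij
      apply (pow_bij h hσ hζ).1
      apply AlgEquiv.ext
      intro x
      exact congrArg (fun f : L →* L => f x) hij)
  have hex : ∃ c : L, ∑ k ∈ Finset.range n, A k * (σ ^ k) c ≠ 0 := by
    by_contra hcon
    push Not at hcon
    have h1 := Fintype.linearIndependent_iff.1 hli (fun k => A k) (by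
      funext c
      have h2 := hcon c
      rw [Finset.sum_range] at h2
      rw [Finset.sum_apply]
      exact h2) ⟨0, hn⟩
    have h2 : A 0 = 1 := Finset.prod_range_zero _
    rw [show A ((⟨0, hn⟩ : Fin n) : ℕ) = A 0 from rfl, h2] at h1
    exact one_ne_zero h1
  obtain ⟨c, hc⟩ := hex
  refine ⟨_, hc, ?_⟩
  rw [map_sum, Finset.mul_sum]
  have h1 : ∀ k ∈ Finset.range n, a * σ (A k * (σ ^ k) c) = A (k + 1) * (σ ^ (k + 1)) c := by
    intro k _
    rw [hA, map_mul, pow_succ', AlgEquiv.mul_apply, mul_assoc]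
  rw [Finset.sum_congr rfl h1]
  have h2 : A n * (σ ^ n) c = A 0 * (σ ^ 0) c := by
    have h3 : A n = 1 := hprod.symm
    have h4 : A 0 = 1 := Finset.prod_range_zero _
    rw [h3, h4, pow_n h hσ hζ, pow_zero]
  have h3 := Finset.sum_range_succ (fun k => A k * (σ ^ k) c) n
  have h4 := Finset.sum_range_succ' (fun k => A k * (σ ^ k) c) n
  rw [h3, h2] at h4
  exact (add_right_cancel h4).symm

end Pool.Agent.Helper71.SE
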