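import Pool.Agent.Helper71.SE.Hil
import Pool.Agent.Helper71.SE.H90

/-!
The classes fixed by `σ` and the relations between the ramified primes.
-/

universe u

set_option autoImplicit false

namespace Pool.Agent.Helper91.SE

open Polynomial nonZeroDivisors Pool.Agent.Helper71.SE

section

variable {K L : Type u} [Field K] [Field L] [Algebra K[X] L] [Algebra (RatFunc K) L]
    [IsScalarTower K[X] (RatFunc K) L] [IsAlgClosed K]
    {n : ℕ} {s : ℕ} {e : Fin s → K} {m : Fin s → ℕ} {w : L}

omit [IsAlgClosed K] in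
lemma IsCyc.norm_ne_R (h : IsCyc K L n e m w) {z : integralClosure K[X] L} (hz : z ≠ 0) :
    Algebra.norm K[X] z ≠ 0 := by
  have h1 := norm_loc h z
  have hfd := h.finiteDimensional
  intro h0
  rw [h0, map_zero, Algebra.norm_eq_zero_iff] at h1
  exact hz (Subtype.ext h1)

/-- B2a (Hilbert 90): a class fixed by `σ` is the class of a product of ramified primes -/
theorem IsCyc.fixed_class (h : IsCyc K L n e m w) {ζ : K} (hζ : IsPrimitiveRoot ζ n)
    {σ : L ≃ₐ[RatFunc K] L} (hσ : σ w = algebraMap K[X] L (C ζ) * w)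
    {P : Fin s → Ideal (integralClosure K[X] L)}
    (hP : ∀ i, P i ^ n = Ideal.span {algebraMap K[X] (integralClosure K[X] L) (X - C (e i))})
    {I : Ideal (integralClosure K[X] L)} (hI : I ≠ ⊥)
    (hfix : ∃ x y : integralClosure K[X] L, x ≠ 0 ∧ y ≠ 0 ∧
      Ideal.span {x} * I.map (galR σ) = Ideal.span {y} * I) :
    ∃ (a : Fin s → ℕ) (x y : integralClosure K[X] L), x ≠ 0 ∧ y ≠ 0 ∧
      Ideal.span {x} * I = Ideal.span {y} * ∏ i, P i ^ a i := by
  classical
  have := h.isDedekindDomain
  obtain ⟨x, y, hx, hy, hxy⟩ := hfix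
  -- the norms of `x` and `y` differ by a constant
  have hconj : ∀ k : ℕ, Ideal.span {galR (σ ^ k) x} * I.map (galR (σ ^ (k + 1))) =
      Ideal.span {galR (σ ^ k) y} * I.map (galR (σ ^ k)) := by
    intro k
    have h1 := congrArg (Ideal.map (galR (σ ^ k))) hxy
    rw [Ideal.map_mul, Ideal.map_mul, map_galR_span, map_galR_span, ← map_galR_mul,
      ← pow_succ] at h1
    exact h1
  have hprod : ∀ k : ℕ, (∏ j ∈ Finset.range k, Ideal.span {galR (σ ^ j) x}) *
      I.map (galR (σ ^ k)) = (∏ j ∈ Finset.range k, Ideal.span {galR (σ ^ j) y}) * I := by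
    intro k
    induction k with
    | zero => rw [Finset.prod_range_zero, Finset.prod_range_zero, pow_zero, map_galR_one]
    | succ k ih =>
      rw [Finset.prod_range_succ, Finset.prod_range_succ, mul_assoc, hconj, mul_left_comm, ih]
      ring
  have hN : (∏ j ∈ Finset.range n, Ideal.span {galR (σ ^ j) x}) =
      ∏ j ∈ Finset.range n, Ideal.span {galR (σ ^ j) y} := by
    have h1 := hprod n
    rw [Pool.Agent.Helper71.SE.pow_n h hσ hζ, map_galR_one] at h1
    exact mul_right_cancel₀ hI h1
  have hspan : ∀ z : integralClosure K[X] L, ∏ j ∈ Finset.range n, Ideal.span {galR (σ ^ j) z} =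
      Ideal.span {algebraMap K[X] (integralClosure K[X] L) (Algebra.norm K[X] z)} := by
    intro z
    rw [norm_prodR h hζ hσ, Ideal.prod_span_singleton]
  rw [hspan, hspan, Ideal.span_singleton_eq_span_singleton] at hN
  obtain ⟨u, hu⟩ := hN
  obtain ⟨c, hc, huc⟩ := h.unit_const u.isUnit
  have hnorm : Algebra.norm K[X] x * C c = Algebra.norm K[X] y := by
    apply algebraMap_inj (K := K) (L := L)
    rw [map_mul, ← huc]
    exact congrArg Subtype.val hu
  obtain ⟨c₁, hc₁⟩ := IsAlgClosed.exists_pow_nat_eq c h.prime.pos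
  have hc₁0 : c₁ ≠ 0 := by
    rintro rfl
    rw [zero_pow h.prime.ne_zero] at hc₁
    exact hc hc₁.symm
  -- Hilbert 90
  have hfd := h.finiteDimensional
  have hgal := h.isGalois
  have hx' : (x : L) ≠ 0 := fun h0 => hx (Subtype.ext h0)
  have hy' : (y : L) ≠ 0 := fun h0 => hy (Subtype.ext h0)
  have hC : algebraMap K[X] L (C c₁) ≠ 0 := by
    rwa [Ne, map_eq_zero_iff _ (algebraMap_inj (K := K) (L := L)), C_eq_zero]
  have hnC : Algebra.norm (RatFunc K) (algebraMap K[X] L (C c₁)) =
      algebraMap K[X] (RatFunc K) (C c) := by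
    rw [Pool.Agent.Helper91.SE.algebraMap_eq, Algebra.norm_algebraMap, h.finrank, ← map_pow,
      ← C_pow, hc₁]
  have hη : Algebra.norm (RatFunc K) ((y : L) / ((x : L) * algebraMap K[X] L (C c₁))) = 1 := by
    have h1 : (y : L) / ((x : L) * algebraMap K[X] L (C c₁)) *
        ((x : L) * algebraMap K[X] L (C c₁)) = y := div_mul_cancel₀ _ (mul_ne_zero hx' hC)
    have h2 := congrArg (Algebra.norm (RatFunc K)) h1
    rw [map_mul, map_mul _ (x : L), hnC, norm_loc h, norm_loc h, ← map_mul, hnorm] at h2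
    have h3 : algebraMap K[X] (RatFunc K) (Algebra.norm K[X] y) ≠ 0 := by
      rw [Ne, map_eq_zero_iff _ (RatFunc.algebraMap_injective K)]
      exact h.norm_ne_R hy
    exact (mul_eq_right₀ h3).1 h2
  obtain ⟨b, hb0, hb⟩ := hilbert90 h hσ hζ hη
  -- clear the denominator of `b`
  have := isLoc h
  obtain ⟨⟨β, r⟩, hβ⟩ := IsLocalization.surj
    (Algebra.algebraMapSubmonoid (integralClosure K[X] L) (K[X])⁰) b
  obtain ⟨r₀, hr₀, hr⟩ := r.2
  have hr₀0 : r₀ ≠ 0 := nonZeroDivisors.ne_zero hr₀
  have hβ' : b * algebraMap K[X] L r₀ = (β : L) := by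
    have h1 : ((r : integralClosure K[X] L) : L) = algebraMap K[X] L r₀ := by
      rw [← hr]; rfl
    rw [← h1]
    exact hβ
  have hrL : algebraMap K[X] L r₀ ≠ 0 := by
    rwa [Ne, map_eq_zero_iff _ (algebraMap_inj (K := K) (L := L))]
  have hβ0 : β ≠ 0 := by
    intro h0
    rw [h0] at hβ'
    have h1 : b * algebraMap K[X] L r₀ = 0 := hβ'
    exact mul_ne_zero hb0 hrL h1
  have hσβ : (y : L) * σ β = (x : L) * algebraMap K[X] L (C c₁) * β := by
    have h2 : σ (β : L) = σ b * algebraMap K[X] L r₀ := by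
      rw [← hβ', map_mul, aut_poly]
    have h3 : (x : L) * algebraMap K[X] L (C c₁) * b = y * σ b := by
      calc (x : L) * algebraMap K[X] L (C c₁) * b
          = (x : L) * algebraMap K[X] L (C c₁) *
            ((y : L) / ((x : L) * algebraMap K[X] L (C c₁)) * σ b) := by rw [hb]
        _ = y * σ b := by field_simp
    rw [h2, ← hβ', ← mul_assoc, ← mul_assoc, h3]
  have hσβR : y * galR σ β = x * Cst K L c₁ * β := Subtype.ext hσβ
  have hCst : IsUnit (Cst K L c₁) := (Ne.isUnit hc₁0).map _
  have hyβ : Ideal.span {y * galR σ β} = Ideal.span {x * β} := by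
    rw [hσβR, show x * Cst K L c₁ * β = x * β * Cst K L c₁ by ring]
    exact Ideal.span_singleton_mul_right_unit hCst _
  -- the invariant ideal
  have hJ0 : Ideal.span {β} * I ≠ ⊥ := by
    rw [Ne, Ideal.mul_eq_bot, Ideal.span_singleton_eq_bot]
    rintro (h1 | h1)
    · exact hβ0 h1
    · exact hI h1
  have hinv : (Ideal.span {β} * I).map (galR σ) = Ideal.span {β} * I := by
    have h1 : Ideal.span {x * y} * (Ideal.span {β} * I).map (galR σ) =
        Ideal.span {x * y} * (Ideal.span {β} * I) := by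
      rw [Ideal.map_mul, map_galR_span]
      calc Ideal.span {x * y} * (Ideal.span {galR σ β} * I.map (galR σ))
          = Ideal.span {y * galR σ β} * (Ideal.span {x} * I.map (galR σ)) := by
            rw [← Ideal.span_singleton_mul_span_singleton,
              ← Ideal.span_singleton_mul_span_singleton]
            ring
        _ = Ideal.span {x * y} * (Ideal.span {β} * I) := by
            rw [hyβ, hxy, ← Ideal.span_singleton_mul_span_singleton,
              ← Ideal.span_singleton_mul_span_singleton]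
            ring
    refine mul_left_cancel₀ ?_ h1
    rw [Ne, Ideal.zero_eq_bot, Ideal.span_singleton_eq_bot]
    exact mul_ne_zero hx hy
  obtain ⟨q, a, hq, hqa⟩ := inv_ideal h hP hζ hσ _ _ le_rfl hJ0 hinv
  exact ⟨a, β, _, hβ0, algR_ne h hq, hqa⟩

/-- the multiplicity of a ramified prime in a polynomial is divisible by `n` -/
lemma IsCyc.count_poly (h : IsCyc K L n e m w)
    {P : Fin s → Ideal (integralClosure K[X] L)}
    (hP : ∀ i, P i ^ n = Ideal.span {algebraMap K[X] (integralClosure K[X] L) (X - C (e i))})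
    (i : Fin s) {p : K[X]} (hp : p ≠ 0) : ∃ k : ℕ,
      emultiplicity (P i) (Ideal.span {algebraMap K[X] (integralClosure K[X] L) p}) =
        ((n * k : ℕ) : ℕ∞) := by
  have := h.isDedekindDomain
  obtain ⟨φ, hφ, hi, h2, h0, hPp⟩ := ram_pt h hP i
  have hprime : Prime (P i) := Ideal.prime_of_isPrime h0 hPp
  obtain ⟨q, hq, hq'⟩ := Polynomial.exists_eq_pow_rootMultiplicity_mul_and_not_dvd p hp (e i)
  refine ⟨p.rootMultiplicity (e i), ?_⟩
  have h3 : Ideal.span {algebraMap K[X] (integralClosure K[X] L) p} =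
      P i ^ (n * p.rootMultiplicity (e i)) *
        Ideal.span {algebraMap K[X] (integralClosure K[X] L) q} := by
    conv_lhs => rw [hq]
    rw [map_mul, map_pow, ← Ideal.span_singleton_mul_span_singleton, ← Ideal.span_singleton_pow,
      ← hP, ← pow_mul]
  have h4 : ¬ P i ∣ Ideal.span {algebraMap K[X] (integralClosure K[X] L) q} := by
    rw [Ideal.dvd_span_singleton, h2, RingHom.mem_ker, hφ.poly, hi]
    intro h5
    exact hq' (dvd_iff_isRoot.2 h5)
  have hnu : ¬ IsUnit (P i) := hprime.not_isUnit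
  have hfin : FiniteMultiplicity (P i) (P i ^ (n * p.rootMultiplicity (e i))) :=
    FiniteMultiplicity.of_prime_left hprime (pow_ne_zero _ h0)
  rw [h3, emultiplicity_mul hprime, emultiplicity_pow_self_of_prime hprime,
    emultiplicity_eq_zero.2 h4, add_zero]

lemma IsCyc.count_ram (h : IsCyc K L n e m w)
    {P : Fin s → Ideal (integralClosure K[X] L)}
    (hP : ∀ i, P i ^ n = Ideal.span {algebraMap K[X] (integralClosure K[X] L) (X - C (e i))})
    (i : Fin s) (a : Fin s → ℕ) : emultiplicity (P i) (∏ l, P l ^ a l) = ((a i : ℕ) : ℕ∞) := by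
  classical
  have := h.isDedekindDomain
  obtain ⟨φ, hφ, hi, h2, h0, hPp⟩ := ram_pt h hP i
  have hprime : Prime (P i) := Ideal.prime_of_isPrime h0 hPp
  rw [← Finset.mul_prod_erase _ _ (Finset.mem_univ i), emultiplicity_mul hprime,
    emultiplicity_pow_self_of_prime hprime, emultiplicity_eq_zero.2, add_zero]
  intro hd
  rw [hprime.dvd_finsetProd_iff] at hd
  obtain ⟨l, hl, hd⟩ := hd
  have h3 := hprime.dvd_of_dvd_pow hd
  obtain ⟨ψ, hψ, hl', h2', h0', hPp'⟩ := ram_pt h hP l
  have h4 : P l = P i := (hPp'.isMaximal h0').eq_of_le hPp.ne_top (Ideal.dvd_iff_le.1 h3)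
  exact (Finset.ne_of_mem_erase hl) (ram_inj h hP h4)

/-- B2b: the relations between the classes of the ramified primes -/
theorem IsCyc.ram_principal (h : IsCyc K L n e m w)
    {P : Fin s → Ideal (integralClosure K[X] L)}
    (hP : ∀ i, P i ^ n = Ideal.span {algebraMap K[X] (integralClosure K[X] L) (X - C (e i))})
    (a : Fin s → ℕ) :
    (∃ f : integralClosure K[X] L, ∏ i, P i ^ a i = Ideal.span {f}) ↔
      ∃ j : ℕ, ∀ i, a i ≡ j * m i [MOD n] := by
  classical
  have := h.isDedekindDomain
  obtain ⟨ζ, hζ⟩ := h.root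
  obtain ⟨σ, hσ⟩ := h.exists_aut (ζ := ζ) hζ.pow_eq_one
  have hn0 := h.prime.ne_zero
  have hpow : ∀ b : Fin s → ℕ, (∏ l, P l ^ b l) ^ n =
      Ideal.span {algebraMap K[X] (integralClosure K[X] L) (∏ l, (X - C (e l)) ^ b l)} := by
    intro b
    rw [← Finset.prod_pow, map_prod, ← Ideal.prod_span_singleton]
    refine Finset.prod_congr rfl fun l _ => ?_
    rw [← pow_mul, mul_comm, pow_mul, hP, Ideal.span_singleton_pow, map_pow]
  constructor
  · rintro ⟨f, hf⟩
    have hf0 : f ≠ 0 := by
      rintro rfl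
      rw [Ideal.span_singleton_zero] at hf
      have h1 : ∏ i, P i ^ a i ≠ 0 := Finset.prod_ne_zero_iff.2 fun i _ =>
        pow_ne_zero (a i) (ram_pt h hP i).choose_spec.2.2.2.1
      exact h1 hf
    have hfL : (f : L) ≠ 0 := fun h0 => hf0 (Subtype.ext h0)
    -- `σ f = c f`
    have h1 : Ideal.span {f} = Ideal.span {galR σ f} := by
      rw [← map_galR_span, ← hf]
      have h2 := map_prod (Ideal.mapHom (galR σ)) (fun i => P i ^ a i) Finset.univ
      refine Eq.trans ?_ h2.symm
      refine Finset.prod_congr rfl fun i _ => ?_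
      change _ = (P i ^ a i).map (galR σ)
      rw [Ideal.map_pow, ram_inv h hP]
    rw [Ideal.span_singleton_eq_span_singleton] at h1
    obtain ⟨u, hu⟩ := h1
    obtain ⟨c, hc, huc⟩ := h.unit_const u.isUnit
    have hσf : σ (f : L) = algebraMap K[X] L (C c) * f := by
      have h2 := congrArg Subtype.val hu
      change (f : L) * (u : integralClosure K[X] L) = σ f at h2
      rw [← h2, huc, mul_comm]
    have hσk : ∀ k : ℕ, (σ ^ k) (f : L) = algebraMap K[X] L (C (c ^ k)) * f := by
      intro k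
      induction k with
      | zero => simp
      | succ k ih =>
        rw [pow_succ', AlgEquiv.mul_apply, ih, map_mul, aut_poly, hσf, ← mul_assoc, ← map_mul,
          ← C_mul, ← pow_succ]
    have hcn : c ^ n = 1 := by
      have h2 := hσk n
      rw [Pool.Agent.Helper71.SE.pow_n h hσ hζ, AlgEquiv.one_apply] at h2
      have h3 : algebraMap K[X] L (C (c ^ n)) = algebraMap K[X] L (C 1) := by
        rw [C_1, map_one]
        exact (mul_eq_right₀ hfL).1 h2.symm
      exact C_injective (algebraMap_inj (K := K) (L := L) h3)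
    have : NeZero n := ⟨hn0⟩
    obtain ⟨j, -, hj⟩ := hζ.eq_pow_of_pow_eq_one hcn
    -- `f = w ^ j q`
    have hwj : w ^ j ≠ 0 := pow_ne_zero _ h.w_ne
    obtain ⟨q, hq⟩ := of_fixed h hσ hζ (x := (f : L) / w ^ j) (by
      have hC : algebraMap K[X] L (C ζ) ≠ 0 := by
        rw [Ne, map_eq_zero_iff _ (algebraMap_inj (K := K) (L := L)), C_eq_zero]
        exact hζ.ne_zero hn0
      rw [map_div₀, map_pow, hσ, hσf, ← hj, mul_pow, C_pow, map_pow]
      exact mul_div_mul_left _ _ (pow_ne_zero j hC))
    obtain ⟨⟨p, r⟩, hpr⟩ := IsLocalization.surj (nonZeroDivisors K[X]) q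
    have hr0 : (r : K[X]) ≠ 0 := nonZeroDivisors.ne_zero r.2
    have heq : (f : L) * algebraMap K[X] L r = w ^ j * algebraMap K[X] L p := by
      have h2 := congrArg (algebraMap (RatFunc K) L) hpr
      rw [map_mul, hq, ← Pool.Agent.Helper91.SE.algebraMap_eq,
        ← Pool.Agent.Helper91.SE.algebraMap_eq] at h2
      rw [← h2]
      field_simp
    have heqR : f * algebraMap K[X] (integralClosure K[X] L) r =
        h.wR ^ j * algebraMap K[X] (integralClosure K[X] L) p := Subtype.ext heq
    have hp0 : p ≠ 0 := by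
      rintro rfl
      rw [map_zero, mul_zero] at heq
      refine mul_ne_zero hfL ?_ heq
      rwa [Ne, map_eq_zero_iff _ (algebraMap_inj (K := K) (L := L))]
    -- the ideal of `w`
    have hw : Ideal.span {h.wR} = ∏ l, P l ^ m l := by
      refine root_unique h ?_
      rw [hpow, Ideal.span_singleton_pow, h.wR_pow]
      rfl
    refine ⟨j, fun i => ?_⟩
    obtain ⟨k₁, hk₁⟩ := h.count_poly hP i hr0
    obtain ⟨k₂, hk₂⟩ := h.count_poly hP i hp0
    obtain ⟨φ, hφ, hi, h2, h0, hPp⟩ := ram_pt h hP i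
    have hprime : Prime (P i) := Ideal.prime_of_isPrime h0 hPp
    have h5 := congrArg (fun z => emultiplicity (P i) (Ideal.span {z})) heqR
    rw [← Ideal.span_singleton_mul_span_singleton, ← Ideal.span_singleton_mul_span_singleton,
      emultiplicity_mul hprime, emultiplicity_mul hprime, ← hf, h.count_ram hP, hk₁, hk₂,
      ← Ideal.span_singleton_pow, hw, ← Finset.prod_pow] at h5
    have h6 : ∏ l, (P l ^ m l) ^ j = ∏ l, P l ^ (j * m l) :=
      Finset.prod_congr rfl fun l _ => by rw [← pow_mul, mul_comm]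
    rw [h6, h.count_ram hP] at h5
    have h7 : a i + n * k₁ = j * m i + n * k₂ := by exact_mod_cast h5
    have h8 : (a i + n * k₁) % n = (j * m i + n * k₂) % n := by rw [h7]
    rw [Nat.add_mul_mod_self_left, Nat.add_mul_mod_self_left] at h8
    exact h8
  · rintro ⟨j, hj⟩
    obtain ⟨b, -, hb⟩ := h.exists_basis_elt j
    refine ⟨b * algebraMap K[X] (integralClosure K[X] L) (∏ l, (X - C (e l)) ^ (a l / n)), ?_⟩
    refine root_unique h ?_
    rw [hpow, Ideal.span_singleton_pow, mul_pow, hb, ← map_pow, ← map_mul, ← Finset.prod_pow,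
      ← Finset.prod_mul_distrib]
    have h2 : ∏ l, (X - C (e l)) ^ a l =
        ∏ l, (X - C (e l)) ^ (j * m l % n) * ((X - C (e l)) ^ (a l / n)) ^ n := by
      refine Finset.prod_congr rfl fun l _ => ?_
      rw [← pow_mul, ← pow_add]
      congr 1
      have h1 : a l % n = j * m l % n := hj l
      rw [← h1, mul_comm (a l / n) n]
      exact (Nat.mod_add_div _ _).symm
    rw [h2]

end

end Pool.Agent.Helper91.SE
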