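import Pool.Agent.Helper71.SE.Div

/-!
Invariant ideals and the relations between the ramified primes.
-/

universe u

set_option autoImplicit false

namespace Pool.Agent.Helper71.SE

open Polynomial Pool.Agent.Helper91.SE nonZeroDivisors

section

variable {K L : Type u} [Field K] [Field L] [Algebra K[X] L] [Algebra (RatFunc K) L]
    [IsScalarTower K[X] (RatFunc K) L]
    {n : ℕ} {s : ℕ} {e : Fin s → K} {m : Fin s → ℕ} {w : L}
    (h : IsCyc K L n e m w) {ζ : K} {σ : L ≃ₐ[RatFunc K] L}

include h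

lemma root_unique {I J : Ideal (integralClosure K[X] L)} (hIJ : I ^ n = J ^ n) : I = J := by
  have := h.isDedekindDomain
  have h1 : I ∣ J := (UniqueFactorizationMonoid.pow_dvd_pow_iff_dvd h.prime.ne_zero).1 (hIJ ▸ dvd_rfl)
  have h2 : J ∣ I := (UniqueFactorizationMonoid.pow_dvd_pow_iff_dvd h.prime.ne_zero).1 (hIJ ▸ dvd_rfl)
  exact le_antisymm (Ideal.dvd_iff_le.1 h2) (Ideal.dvd_iff_le.1 h1)

variable [IsAlgClosed K]

/-- The point over a branch point. -/
lemma exists_ram_pt (i : Fin s) : ∃ φ : integralClosure K[X] L →+* K, IsPt φ ∧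
    φ (algebraMap K[X] (integralClosure K[X] L) X) = e i ∧ RingHom.ker φ ≠ ⊥ ∧
    Ideal.span {algebraMap K[X] (integralClosure K[X] L) (X - C (e i))} = RingHom.ker φ ^ n := by
  have hne : Ideal.span {algebraMap K[X] (integralClosure K[X] L) (X - C (e i))} ≠ ⊤ := by
    intro h0
    have h1 := h.gdeg_sub_C (e i)
    rw [h0, h.gdeg_top] at h1
    exact h.prime.ne_zero h1.symm
  obtain ⟨M, hM, hle⟩ := Ideal.exists_le_maximal _ hne
  have hmem : algebraMap K[X] (integralClosure K[X] L) (X - C (e i)) ∈ M :=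
    hle (Ideal.mem_span_singleton_self _)
  have hM0 : M ≠ ⊥ := by
    rintro rfl
    rw [Ideal.mem_bot] at hmem
    exact algR_ne h (X_sub_C_ne_zero (e i)) hmem
  have := hM.isPrime
  obtain ⟨φ, hφ, hker⟩ := h.exists_pt M hM0
  have hi : φ (algebraMap K[X] (integralClosure K[X] L) X) = e i := by
    rw [← hker, RingHom.mem_ker, hφ.poly] at hmem
    rw [eval_sub, eval_X, eval_C] at hmem
    exact sub_eq_zero.1 hmem
  exact ⟨φ, hφ, hi, hker ▸ hM0, (h.fac_ram hφ hi).1⟩

variable {P : Fin s → Ideal (integralClosure K[X] L)}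
    (hP : ∀ i, P i ^ n = Ideal.span {algebraMap K[X] (integralClosure K[X] L) (X - C (e i))})

include hP

lemma ram_pt (i : Fin s) : ∃ φ : integralClosure K[X] L →+* K, IsPt φ ∧
    φ (algebraMap K[X] (integralClosure K[X] L) X) = e i ∧ P i = RingHom.ker φ ∧ P i ≠ ⊥ ∧
    (P i).IsPrime := by
  obtain ⟨φ, hφ, hi, h0, h1⟩ := exists_ram_pt h i
  have h2 : P i = RingHom.ker φ := root_unique h (by rw [hP, h1])
  exact ⟨φ, hφ, hi, h2, h2 ▸ h0, h2 ▸ RingHom.ker_isPrime φ⟩

lemma ram_inv (τ : L ≃ₐ[RatFunc K] L) (i : Fin s) : (P i).map (galR τ) = P i := by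
  obtain ⟨φ, hφ, hi, h2, h0, hp⟩ := ram_pt h hP i
  exact map_ram h τ hp h0 (hP i).symm

lemma ram_inj {i j : Fin s} (hij : P i = P j) : i = j := by
  obtain ⟨φ, hφ, hi, h2, -, -⟩ := ram_pt h hP i
  obtain ⟨ψ, hψ, hj, h3, -, -⟩ := ram_pt h hP j
  have h4 : φ = ψ := hφ.ext_ker hψ (by rw [← h2, ← h3, hij])
  rw [h4] at hi
  exact h.inj (hi.symm.trans hj)

/-- Invariant ideals are products of polynomials and ramified primes. -/
theorem inv_ideal (hζ : IsPrimitiveRoot ζ n) (hσ : σ w = algebraMap K[X] L (C ζ) * w) :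
    ∀ (d : ℕ) (J : Ideal (integralClosure K[X] L)), h.gdeg J ≤ d → J ≠ ⊥ →
      J.map (galR σ) = J → ∃ (q : K[X]) (a : Fin s → ℕ), q ≠ 0 ∧
        J = Ideal.span {algebraMap K[X] (integralClosure K[X] L) q} * ∏ i, P i ^ a i := by
  classical
  have := h.isDedekindDomain
  intro d
  induction d with
  | zero =>
    intro J hd hJ _
    have h1 := h.eq_top_of_gdeg hJ (Nat.le_zero.1 hd)
    refine ⟨1, 0, one_ne_zero, ?_⟩
    simp only [map_one, Ideal.span_singleton_one, h1, ← Ideal.one_eq_top, Pi.zero_apply, pow_zero,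
      Finset.prod_const_one, mul_one]
  | succ d ih =>
    intro J hd hJ hinv
    by_cases htop : J = ⊤
    · refine ⟨1, 0, one_ne_zero, ?_⟩
      simp only [map_one, Ideal.span_singleton_one, htop, ← Ideal.one_eq_top, Pi.zero_apply,
        pow_zero, Finset.prod_const_one, mul_one]
    have hinvk : ∀ k : ℕ, J.map (galR (σ ^ k)) = J := by
      intro k
      induction k with
      | zero => exact map_galR_one J
      | succ k ihk => rw [pow_succ', map_galR_mul, ihk, hinv]
    obtain ⟨M, hM, hle⟩ := Ideal.exists_le_maximal _ htop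
    have hM0 : M ≠ ⊥ := by
      rintro rfl
      exact hJ (le_bot_iff.1 hle)
    have hMp := hM.isPrime
    obtain ⟨φ, hφ, hker⟩ := h.exists_pt M hM0
    by_cases hw : φ h.wR = 0
    · -- a ramified prime
      obtain ⟨i, hi⟩ := exists_branch h hφ hw
      have h1 : M = P i := by
        refine root_unique h ?_
        rw [hP, (h.fac_ram hφ hi).1, hker]
      obtain ⟨J', hJ'⟩ : M ∣ J := Ideal.dvd_iff_le.2 hle
      have hJ'0 : J' ≠ ⊥ := by
        rintro rfl
        rw [Ideal.mul_bot] at hJ'
        exact hJ hJ'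
      have hdeg : h.gdeg J' ≤ d := by
        have h2 := h.gdeg_mul hM0 hJ'0
        rw [← hJ'] at h2
        have h3 := h.gdeg_pos hM0 hM.ne_top
        omega
      have hinv' : J'.map (galR σ) = J' := by
        have h2 : M * J'.map (galR σ) = M * J' := by
          rw [← hJ']
          conv_rhs => rw [← hinv, hJ', Ideal.map_mul]
          rw [h1, ram_inv h hP]
        exact mul_left_cancel₀ hM0 h2
      obtain ⟨q, a, hq, hqa⟩ := ih J' hdeg hJ'0 hinv'
      refine ⟨q, fun l => a l + if l = i then 1 else 0, hq, ?_⟩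
      rw [hJ', hqa, h1]
      have h4 : ∏ l, P l ^ (a l + if l = i then 1 else 0) = (∏ l, P l ^ a l) * P i := by
        simp_rw [pow_add]
        rw [Finset.prod_mul_distrib]
        congr 1
        rw [Finset.prod_eq_single i]
        · simp
        · intro l _ hl
          rw [if_neg hl, pow_zero]
        · intro hi
          exact absurd (Finset.mem_univ i) hi
      rw [h4]
      ring
    · -- an unramified prime
      have hinvw : ∀ j : ℕ, (σ ^ j)⁻¹ w = algebraMap K[X] L (C (ζ⁻¹ ^ j)) * w := by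
        intro j
        have h2 := pow_w hσ j
        have h3 : (σ ^ j)⁻¹ ((σ ^ j) w) = w := by
          rw [← AlgEquiv.mul_apply, inv_mul_cancel]; rfl
        rw [h2, map_mul, aut_poly] at h3
        have h5 : algebraMap K[X] L (C (ζ⁻¹ ^ j)) * algebraMap K[X] L (C (ζ ^ j)) = 1 := by
          rw [← map_mul, ← C_mul, ← mul_pow, inv_mul_cancel₀ (hζ.ne_zero h.prime.ne_zero),
            one_pow, C_1, map_one]
        calc (σ ^ j)⁻¹ w = (algebraMap K[X] L (C (ζ⁻¹ ^ j)) * algebraMap K[X] L (C (ζ ^ j))) *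
              (σ ^ j)⁻¹ w := by rw [h5, one_mul]
          _ = algebraMap K[X] L (C (ζ⁻¹ ^ j)) * w := by rw [mul_assoc, h3]
      obtain ⟨h1, -, hinj⟩ := h.fac_unram hφ hw (ζ := ζ⁻¹) hζ.inv (σ := fun j => (σ ^ j)⁻¹) hinvw
      obtain ⟨c, hc⟩ : ∃ c, c = φ (algebraMap K[X] (integralClosure K[X] L) X) := ⟨_, rfl⟩
      rw [← hc] at h1
      have hdvd : Ideal.span {algebraMap K[X] (integralClosure K[X] L) (X - C c)} ∣ J := by
        rw [h1, ← Finset.prod_image (s := Finset.range n) (f := fun Q => Q)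
          (g := fun j => RingHom.ker (φ.comp (galR (σ ^ j)⁻¹ :
            integralClosure K[X] L →+* integralClosure K[X] L)))]
        · refine Finset.prod_primes_dvd _ ?_ ?_
          · intro Q hQ
            obtain ⟨j, -, rfl⟩ := Finset.mem_image.1 hQ
            exact (hφ.comp_galR _).prime h
          · intro Q hQ
            obtain ⟨j, -, rfl⟩ := Finset.mem_image.1 hQ
            rw [← map_galR_ker, hker, Ideal.dvd_iff_le]
            conv_lhs => rw [← hinvk j]
            exact Ideal.map_mono hle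
        · intro i hi j hj hij
          exact hinj i (Finset.mem_range.1 hi) j (Finset.mem_range.1 hj) hij
      obtain ⟨J', hJ'⟩ := hdvd
      have hJ'0 : J' ≠ ⊥ := by
        rintro rfl
        rw [Ideal.mul_bot] at hJ'
        exact hJ hJ'
      have hX0 : Ideal.span {algebraMap K[X] (integralClosure K[X] L) (X - C c)} ≠ ⊥ := by
        rw [Ne, Ideal.span_singleton_eq_bot]
        exact algR_ne h (X_sub_C_ne_zero c)
      have hdeg : h.gdeg J' ≤ d := by
        have h2 := h.gdeg_mul hX0 hJ'0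
        rw [← hJ', h.gdeg_sub_C] at h2
        have h3 := h.prime.pos
        omega
      have hinv' : J'.map (galR σ) = J' := by
        have h2 : Ideal.span {algebraMap K[X] (integralClosure K[X] L) (X - C c)} *
            J'.map (galR σ) =
            Ideal.span {algebraMap K[X] (integralClosure K[X] L) (X - C c)} * J' := by
          rw [← hJ']
          conv_rhs => rw [← hinv, hJ', Ideal.map_mul, map_galR_poly]
        exact mul_left_cancel₀ hX0 h2
      obtain ⟨q, a, hq, hqa⟩ := ih J' hdeg hJ'0 hinv'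
      refine ⟨(X - C c) * q, a, mul_ne_zero (X_sub_C_ne_zero c) hq, ?_⟩
      rw [hJ', hqa, map_mul, ← Ideal.span_singleton_mul_span_singleton, mul_assoc]

end

end Pool.Agent.Helper71.SE
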