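import Pool.Agent.Helper71.SE.Aut

/-!
The product of the conjugates of an ideal is generated by a polynomial.
-/

universe u

set_option autoImplicit false

namespace Pool.Agent.Helper71.SE

open Polynomial Pool.Agent.Helper91.SE

section

variable {K L : Type u} [Field K] [Field L] [Algebra K[X] L] [Algebra (RatFunc K) L]
    [IsScalarTower K[X] (RatFunc K) L]

lemma galR_mul (σ τ : L ≃ₐ[RatFunc K] L) (z : integralClosure K[X] L) :
    galR (σ * τ) z = galR σ (galR τ z) := rfl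

lemma galR_one (z : integralClosure K[X] L) :
    galR (1 : L ≃ₐ[RatFunc K] L) z = z := rfl

lemma map_galR_mul (σ τ : L ≃ₐ[RatFunc K] L) (I : Ideal (integralClosure K[X] L)) :
    I.map (galR (σ * τ)) = (I.map (galR τ)).map (galR σ) := by
  ext z
  rw [Ideal.mem_map_of_equiv, Ideal.mem_map_of_equiv]
  constructor
  · rintro ⟨x, hx, rfl⟩
    exact ⟨galR τ x, Ideal.mem_map_of_mem _ hx, rfl⟩
  · rintro ⟨y, hy, rfl⟩
    obtain ⟨x, hx, rfl⟩ := (Ideal.mem_map_of_equiv _ _).1 hy
    exact ⟨x, hx, rfl⟩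

lemma map_galR_one (I : Ideal (integralClosure K[X] L)) :
    I.map (galR (1 : L ≃ₐ[RatFunc K] L)) = I := by
  ext z
  rw [Ideal.mem_map_of_equiv]
  constructor
  · rintro ⟨x, hx, rfl⟩
    exact hx
  · intro hz
    exact ⟨z, hz, rfl⟩

lemma map_galR_span (σ : L ≃ₐ[RatFunc K] L) (z : integralClosure K[X] L) :
    (Ideal.span {z}).map (galR σ) = Ideal.span {galR σ z} := by
  rw [Ideal.map_span, Set.image_singleton]

lemma map_galR_poly (σ : L ≃ₐ[RatFunc K] L) (p : K[X]) :
    (Ideal.span {algebraMap K[X] (integralClosure K[X] L) p}).map (galR σ) =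
      Ideal.span {algebraMap K[X] (integralClosure K[X] L) p} := by
  rw [map_galR_span, galR_algebraMap]

lemma map_galR_ne {σ : L ≃ₐ[RatFunc K] L} {I : Ideal (integralClosure K[X] L)} (hI : I ≠ ⊥) :
    I.map (galR σ) ≠ ⊥ := fun h0 =>
  hI ((Ideal.map_eq_bot_iff_of_injective (galR σ).injective).1 h0)

lemma map_galR_ker (τ : L ≃ₐ[RatFunc K] L) (φ : integralClosure K[X] L →+* K) :
    (RingHom.ker φ).map (galR τ) = RingHom.ker
      (φ.comp (galR τ⁻¹ : integralClosure K[X] L →+* integralClosure K[X] L)) := by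
  have h1 : ∀ z, galR τ⁻¹ (galR τ z) = z := fun z => by
    rw [← galR_mul, inv_mul_cancel, galR_one]
  have h2 : ∀ z, galR τ (galR τ⁻¹ z) = z := fun z => by
    rw [← galR_mul, mul_inv_cancel, galR_one]
  ext z
  rw [Ideal.mem_map_of_equiv, RingHom.mem_ker]
  constructor
  · rintro ⟨x, hx, rfl⟩
    change φ (galR τ⁻¹ (galR τ x)) = 0
    rw [h1]
    exact hx
  · intro hz
    exact ⟨galR τ⁻¹ z, hz, h2 z⟩

/-- The product of the conjugates. -/
noncomputable def Nm (σ : L ≃ₐ[RatFunc K] L) (k : ℕ) (I : Ideal (integralClosure K[X] L)) :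
    Ideal (integralClosure K[X] L) := ∏ j ∈ Finset.range k, I.map (galR (σ ^ j))

lemma Nm_mul (σ : L ≃ₐ[RatFunc K] L) (k : ℕ) (I J : Ideal (integralClosure K[X] L)) :
    Nm σ k (I * J) = Nm σ k I * Nm σ k J := by
  unfold Nm
  rw [← Finset.prod_mul_distrib]
  exact Finset.prod_congr rfl fun j _ => Ideal.map_mul _ _ _

lemma Nm_succ (σ : L ≃ₐ[RatFunc K] L) (k : ℕ) (I : Ideal (integralClosure K[X] L)) :
    Nm σ (k + 1) I = I * (Nm σ k I).map (galR σ) := by
  unfold Nm
  rw [Finset.prod_range_succ', pow_zero, map_galR_one, mul_comm]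
  congr 1
  have h1 := map_prod (Ideal.mapHom (galR σ)) (fun j => I.map (galR (σ ^ j))) (Finset.range k)
  change _ = (∏ j ∈ Finset.range k, I.map (galR (σ ^ j))).map (galR σ)
  refine Eq.trans ?_ h1.symm
  refine Finset.prod_congr rfl fun j _ => ?_
  rw [pow_succ', map_galR_mul]
  rfl

variable [IsAlgClosed K] {n : ℕ} {s : ℕ} {e : Fin s → K} {m : Fin s → ℕ} {w : L}
    (h : IsCyc K L n e m w) {ζ : K} {σ : L ≃ₐ[RatFunc K] L}

omit [IsAlgClosed K] in
lemma algR_ne (_h : IsCyc K L n e m w) {p : K[X]} (hp : p ≠ 0) :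
    algebraMap K[X] (integralClosure K[X] L) p ≠ 0 := by
  intro h3
  have h4 := congrArg Subtype.val h3
  have h5 : algebraMap K[X] L p = 0 := h4
  rw [map_eq_zero_iff _ (algebraMap_inj (K := K) (L := L))] at h5
  exact hp h5

include h

omit [IsAlgClosed K] in
/-- A prime over a branch point is invariant. -/
lemma map_ram (τ : L ≃ₐ[RatFunc K] L) {P : Ideal (integralClosure K[X] L)} (hP : P.IsPrime)
    (hP0 : P ≠ ⊥) {p : K[X]}
    (hPn : Ideal.span {algebraMap K[X] (integralClosure K[X] L) p} = P ^ n) :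
    P.map (galR τ) = P := by
  have := h.isDedekindDomain
  have h1 : (P.map (galR τ)) ^ n = P ^ n := by
    rw [← Ideal.map_pow, ← hPn, map_galR_poly]
  have hq : (P.map (galR τ)).IsPrime := Ideal.map_isPrime_of_equiv _
  have h2 : P ∣ P.map (galR τ) :=
    (Ideal.prime_of_isPrime hP0 hP).dvd_of_dvd_pow (h1 ▸ dvd_pow_self P h.prime.ne_zero)
  rw [Ideal.dvd_iff_le] at h2
  have hm : (P.map (galR τ)).IsMaximal := hq.isMaximal (map_galR_ne hP0)
  exact hm.eq_of_le hP.ne_top h2

omit [IsAlgClosed K] in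
lemma exists_branch {φ : integralClosure K[X] L →+* K} (hφ : IsPt φ) (h0 : φ h.wR = 0) :
    ∃ i, φ (algebraMap K[X] (integralClosure K[X] L) X) = e i := by
  have h1 := hφ.w_pow h
  rw [h0, zero_pow h.prime.ne_zero, gpoly, eval_prod, eq_comm, Finset.prod_eq_zero_iff] at h1
  obtain ⟨i, -, h2⟩ := h1
  rw [eval_pow, eval_sub, eval_X, eval_C] at h2
  exact ⟨i, sub_eq_zero.1 (pow_eq_zero_iff (h.pos i).ne' |>.1 h2)⟩

/-- The product of the conjugates of an ideal is generated by a polynomial. -/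
theorem norm_ideal (hζ : IsPrimitiveRoot ζ n) (hσ : σ w = algebraMap K[X] L (C ζ) * w)
    {I : Ideal (integralClosure K[X] L)} (hI : I ≠ ⊥) : ∃ p : K[X], p ≠ 0 ∧
      Nm σ n I = Ideal.span {algebraMap K[X] (integralClosure K[X] L) p} := by
  classical
  have := h.isDedekindDomain
  revert hI
  refine UniqueFactorizationMonoid.induction_on_prime
    (P := fun I : Ideal (integralClosure K[X] L) => I ≠ ⊥ → ∃ p : K[X], p ≠ 0 ∧
      Nm σ n I = Ideal.span {algebraMap K[X] (integralClosure K[X] L) p}) I ?_ ?_ ?_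
  · intro h0
    exact absurd rfl h0
  · intro J hJ _
    rw [Ideal.isUnit_iff] at hJ
    refine ⟨1, one_ne_zero, ?_⟩
    rw [map_one, Ideal.span_singleton_one, hJ, ← Ideal.one_eq_top]
    unfold Nm
    refine Finset.prod_eq_one fun j _ => ?_
    rw [Ideal.one_eq_top, Ideal.map_top]
  · intro J P hJ hP ih _
    obtain ⟨p, hp, hp'⟩ := ih hJ
    have hP0 : P ≠ ⊥ := hP.ne_zero
    have hPp : P.IsPrime := Ideal.isPrime_of_prime hP
    obtain ⟨φ, hφ, hker⟩ := h.exists_pt P hP0
    have key : ∃ q : K[X], q ≠ 0 ∧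
        Nm σ n P = Ideal.span {algebraMap K[X] (integralClosure K[X] L) q} := by
      by_cases hw : φ h.wR = 0
      · obtain ⟨i, hi⟩ := exists_branch h hφ hw
        obtain ⟨h1, -⟩ := h.fac_ram hφ hi
        rw [hker] at h1
        refine ⟨X - C (e i), X_sub_C_ne_zero _, ?_⟩
        unfold Nm
        rw [Finset.prod_congr rfl fun j _ => map_ram h (σ ^ j) hPp hP0 h1, Finset.prod_const,
          Finset.card_range, h1]
      · obtain ⟨h1, -, -⟩ := h.fac_unram hφ hw (ζ := ζ⁻¹) hζ.inv (σ := fun j => (σ ^ j)⁻¹) (by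
          intro j
          have h2 := pow_w hσ j
          have h3 : (σ ^ j)⁻¹ ((σ ^ j) w) = w := by
            rw [← AlgEquiv.mul_apply, inv_mul_cancel]; rfl
          rw [h2, map_mul, aut_poly] at h3
          have h4 : ζ ^ j ≠ 0 := pow_ne_zero _ (hζ.ne_zero h.prime.ne_zero)
          have h5 : algebraMap K[X] L (C (ζ⁻¹ ^ j)) * algebraMap K[X] L (C (ζ ^ j)) = 1 := by
            rw [← map_mul, ← C_mul, ← mul_pow, inv_mul_cancel₀ (hζ.ne_zero h.prime.ne_zero),
              one_pow, C_1, map_one]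
          calc (σ ^ j)⁻¹ w = (algebraMap K[X] L (C (ζ⁻¹ ^ j)) * algebraMap K[X] L (C (ζ ^ j))) *
                (σ ^ j)⁻¹ w := by rw [h5, one_mul]
            _ = algebraMap K[X] L (C (ζ⁻¹ ^ j)) * w := by rw [mul_assoc, h3])
        refine ⟨_, X_sub_C_ne_zero (φ (algebraMap K[X] (integralClosure K[X] L) X)), ?_⟩
        rw [h1]
        unfold Nm
        refine Finset.prod_congr rfl fun j _ => ?_
        rw [← hker, map_galR_ker]
    obtain ⟨q, hq, hq'⟩ := key
    refine ⟨q * p, mul_ne_zero hq hp, ?_⟩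
    rw [Nm_mul, hp', hq', Ideal.span_singleton_mul_span_singleton, map_mul]

end

end Pool.Agent.Helper71.SE
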